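import Pool.Agent.Q72.EL.Stm
import Pool.Agent.Q239.EG.CONT

set_option autoImplicit false

/-! Project EL (helper72), job CONT2: analytic continuation of the point over a ball of admissible points
(adapted from `Pool.Agent.Q239.EG.cont` of helper239). -/

namespace Pool.Agent.Q98.EL

open MvPolynomial Filter Topology Metric Pool.Agent.Q72.EL
open Pool.Agent.Q239.EG (pt_of_frac alg_aeval alg_zeta diff_eval root_bound)
open Pool.Agent.Q72.EG (Pt)

variable {n c : ℕ} {E : Type} [Field E] [Algebra ℂ E]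

/-- different exponents have different weights -/
theorem wt_inj {lam : Fin c → ℝ} (hl : LinearIndependent ℚ lam) {α β : Fin c →₀ ℕ}
    (h : ∑ j, (α j : ℝ) * lam j = ∑ j, (β j : ℝ) * lam j) : α = β := by
  rw [Fintype.linearIndependent_iff] at hl
  have h2 := hl (fun j => (α j : ℚ) - (β j : ℚ)) (by
    have h3 : ∀ j, ((α j : ℚ) - (β j : ℚ)) • lam j = (α j : ℝ) * lam j - (β j : ℝ) * lam j := by
      intro j
      rw [Rat.smul_def]
      push_cast
      ring
    simp only [h3]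
    rw [Finset.sum_sub_distrib, h, sub_self])
  ext j
  have h4 := h2 j
  have h5 : (α j : ℚ) = (β j : ℚ) := sub_eq_zero.1 h4
  exact_mod_cast h5

theorem val_lt (G : Gen n c E) {α β : Fin c →₀ ℕ}
    (h : ∑ j, (α j : ℝ) * G.lam j < ∑ j, (β j : ℝ) * G.lam j) :
    G.O.valuation (∏ j, G.y (G.i j) ^ β j) < G.O.valuation (∏ j, G.y (G.i j) ^ α j) := by
  have h1 := G.hmon (fun j => (β j : ℤ) - (α j : ℤ)) (by
    have h3 : ∀ j, ((((β j : ℤ) - (α j : ℤ) : ℤ)) : ℝ) * G.lam j
        = (β j : ℝ) * G.lam j - (α j : ℝ) * G.lam j := by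
      intro j; push_cast; ring
    simp only [h3]
    rw [Finset.sum_sub_distrib]
    linarith)
  have h0 : ∏ j, G.y (G.i j) ^ α j ≠ 0 :=
    Finset.prod_ne_zero_iff.2 fun j _ => pow_ne_zero _ (G.hy _)
  have h2 : ∏ j, G.y (G.i j) ^ β j
      = (∏ j, G.y (G.i j) ^ ((β j : ℤ) - (α j : ℤ))) * ∏ j, G.y (G.i j) ^ α j := by
    rw [← Finset.prod_mul_distrib]
    refine Finset.prod_congr rfl fun j _ => ?_
    rw [zpow_sub₀ (G.hy _), zpow_natCast, zpow_natCast]
    exact (div_mul_cancel₀ _ (pow_ne_zero _ (G.hy _))).symm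
  rw [h2, map_mul]
  have h4 : 0 < G.O.valuation (∏ j, G.y (G.i j) ^ α j) := by
    rw [zero_lt_iff]
    exact (Valuation.ne_zero_iff _).2 h0
  calc _ < 1 * G.O.valuation (∏ j, G.y (G.i j) ^ α j) := mul_lt_mul_of_pos_right h1 h4
    _ = _ := one_mul _

/-- the coefficients of a relation between `x` and `Y` are relations between the `x` -/
theorem rel_mem (G : Gen n c E) (A : MvPolynomial (Fin c ⊕ Fin n) ℂ)
    (hA : aeval (Sum.elim (fun j => G.y (G.i j)) G.x) A = 0) (α : Fin c →₀ ℕ) : cf A α ∈ G.I := by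
  classical
  by_contra hα
  set S := (sumAlgEquiv ℂ (Fin c) (Fin n) A).support with hS
  have hsupp : ∀ β, cf A β ∉ G.I → β ∈ S := by
    intro β hβ
    rw [hS, mem_support_iff]
    intro h
    apply hβ
    show coeff β _ ∈ _
    rw [h]
    exact G.I.zero_mem
  set F := S.filter (fun β => cf A β ∉ G.I) with hF
  have hFne : F.Nonempty := ⟨α, Finset.mem_filter.2 ⟨hsupp α hα, hα⟩⟩
  obtain ⟨α0, hα0, hmin⟩ := Finset.exists_min_image F
    (fun β => ∑ j, (β j : ℝ) * G.lam j) hFne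
  obtain ⟨hα0S, hα0I⟩ := Finset.mem_filter.1 hα0
  rw [Pool.Agent.Q72.EL.aeval_sum, ← hS, ← Finset.add_sum_erase _ _ hα0S] at hA
  have h3 := eq_neg_of_add_eq_zero_left hA
  have h4 : G.O.valuation (aeval G.x (cf A α0) * ∏ j, G.y (G.i j) ^ α0 j)
      = G.O.valuation (∏ j, G.y (G.i j) ^ α0 j) := by
    rw [map_mul, G.hO _ (fun h => hα0I ((G.mem_I _).2 h)), one_mul]
  have hpos : ∀ β : Fin c →₀ ℕ, 0 < G.O.valuation (∏ j, G.y (G.i j) ^ β j) := by
    intro β
    rw [zero_lt_iff]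
    exact (Valuation.ne_zero_iff _).2
      (Finset.prod_ne_zero_iff.2 fun j _ => pow_ne_zero _ (G.hy _))
  have h5 : G.O.valuation (∑ β ∈ S.erase α0, aeval G.x (cf A β) * ∏ j, G.y (G.i j) ^ β j)
      < G.O.valuation (∏ j, G.y (G.i j) ^ α0 j) := by
    refine Valuation.map_sum_lt _ (hpos α0).ne' fun β hβ => ?_
    obtain ⟨hne, hβS⟩ := Finset.mem_erase.1 hβ
    by_cases hd : cf A β ∈ G.I
    · rw [(G.mem_I _).1 hd, zero_mul, map_zero]
      exact hpos α0
    · rw [map_mul, G.hO _ (fun h => hd ((G.mem_I _).2 h)), one_mul]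
      refine val_lt G (lt_of_le_of_ne (hmin β (Finset.mem_filter.2 ⟨hβS, hd⟩)) fun h => ?_)
      exact hne (wt_inj G.hlam h).symm
  rw [h3, Valuation.map_neg] at h4
  exact h5.ne h4

theorem pt_zeta (G : Gen n c E) {x : Fin n → ℂ} {Y : Fin c → ℂ} (hx : ∀ g ∈ G.I, eval x g = 0) :
    Sum.elim Y x ∈ Pt (Sum.elim (fun j => G.y (G.i j)) G.x) := by
  intro g hg
  rw [eval_sum']
  refine Finset.sum_eq_zero fun α _ => ?_
  rw [hx _ (rel_mem G g hg α), zero_mul]

theorem exists_notMem (G : Gen n c E) {Y : Fin c → E} {H : MvPolynomial (Fin c ⊕ Fin n) ℂ}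
    (hH : aeval (Sum.elim Y G.x) H ≠ 0) : ∃ α, cf H α ∉ G.I := by
  by_contra h
  push Not at h
  apply hH
  rw [Pool.Agent.Q72.EL.aeval_sum]
  refine Finset.sum_eq_zero fun α _ => ?_
  rw [(G.mem_I _).1 (h α), zero_mul]

theorem alg_xy (G : Gen n c E) (g : MvPolynomial (Fin n ⊕ Fin n) ℂ) :
    IsAlgebraic (IntermediateField.adjoin ℂ (Set.range (Sum.elim (fun j => G.y (G.i j)) G.x)))
      (aeval (Sum.elim G.x G.y) g) := by
  refine alg_aeval _ _ (fun i => ?_) g
  rcases i with l | l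
  · exact alg_zeta (Sum.elim (fun j => G.y (G.i j)) G.x) (Sum.inr l)
  · exact G.halg l

/-- **job CONT2** -/
theorem cont (h1 : S_dom) (h2 : Pool.Agent.Q72.EG.S_alg) : S_cont := by
  classical
  intro n c E _ _ G H hH
  set Y0 : Fin c → E := fun j => G.y (G.i j) with hY0
  set ζ : Fin c ⊕ Fin n → E := Sum.elim Y0 G.x with hζ
  set f : Fin n ⊕ (Fin n ⊕ Unit) → E := Sum.elim G.y (Sum.elim (fun l => (G.y l)⁻¹)
    (fun _ => (aeval (Sum.elim G.x G.y) H)⁻¹)) with hf
  have hfalg : ∀ k, IsAlgebraic (IntermediateField.adjoin ℂ (Set.range ζ)) (f k) := by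
    rintro (l | l | l)
    · exact G.halg l
    · exact (G.halg l).inv
    · exact (alg_xy G H).inv
  obtain ⟨Θ, H1, g, hH1, ha, hb, hc⟩ := h2 E (Fin c ⊕ Fin n) (Fin n ⊕ (Fin n ⊕ Unit)) ζ f hfalg
  obtain ⟨R, hR, hdom⟩ := h1 n c G.I G.lam H1 G.I_prime G.hlam (exists_notMem G hH1)
  refine ⟨R, hR, fun R' hR' D => ?_⟩
  obtain ⟨K, hK, hdom'⟩ := hdom R' hR' D
  refine ⟨K, hK, ?_⟩
  intro T hT q₀ ρ X Y hρ hX hY hadm y0 hy0 hy0n hy0Y hy0H
  set U : Set (Fin n → ℂ) := ball q₀ ρ with hU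
  have hcU : q₀ ∈ U := mem_ball_self hρ
  set t : (Fin n → ℂ) → Fin c ⊕ Fin n → ℂ := fun u => Sum.elim (Y u) (X u) with ht
  have htP : ∀ u ∈ U, t u ∈ Pt ζ := fun u hu => pt_zeta G (hadm u hu).1
  have htH : ∀ u ∈ U, eval (t u) H1 ≠ 0 := fun u hu => hdom' T hT (X u) (Y u) (hadm u hu)
  have htd : ∀ i, DifferentiableOn ℂ (fun u => t u i) U := by
    rintro (j | l)
    · exact differentiableOn_pi.1 hY j
    · exact differentiableOn_pi.1 hX l
  -- the point over the centre
  set q0 : Fin n ⊕ (Fin n ⊕ Unit) → ℂ := Sum.elim y0 (Sum.elim (fun l => (y0 l)⁻¹)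
    (fun _ => (eval (Sum.elim (X q₀) y0) H)⁻¹)) with hq0
  have hpt0 : Sum.elim (t q₀) q0 ∈ Pt (Sum.elim ζ f) := by
    set s : MvPolynomial (Fin n ⊕ Fin n) ℂ := H * ∏ l, MvPolynomial.X (Sum.inr l) with hs
    have hsE : aeval (Sum.elim G.x G.y) s = aeval (Sum.elim G.x G.y) H * ∏ l, G.y l := by
      rw [hs, map_mul, map_prod]
      simp
    have hsC : eval (Sum.elim (X q₀) y0) s = eval (Sum.elim (X q₀) y0) H * ∏ l, y0 l := by
      rw [hs, map_mul, map_prod]
      simp
    have hinv : ∀ l : Fin n, ∃ (a : MvPolynomial (Fin n ⊕ Fin n) ℂ) (k : ℕ),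
        (G.y l)⁻¹ * aeval (Sum.elim G.x G.y) s ^ k = aeval (Sum.elim G.x G.y) a ∧
        (y0 l)⁻¹ * eval (Sum.elim (X q₀) y0) s ^ k = eval (Sum.elim (X q₀) y0) a := by
      intro l
      refine ⟨H * ∏ l' ∈ Finset.univ.erase l, MvPolynomial.X (Sum.inr l'), 1, ?_, ?_⟩
      · rw [pow_one, hsE, map_mul, map_prod, ← Finset.mul_prod_erase Finset.univ _ (Finset.mem_univ l)]
        simp only [aeval_X, Sum.elim_inr]
        have := G.hy l
        field_simp
      · rw [pow_one, hsC, map_mul, map_prod, ← Finset.mul_prod_erase Finset.univ _ (Finset.mem_univ l)]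
        simp only [eval_X, Sum.elim_inr]
        have := hy0n l
        field_simp
    refine pt_of_frac hy0 (s := s) ?_ ?_
    · rw [hsC]
      exact mul_ne_zero hy0H (Finset.prod_ne_zero_iff.2 fun l _ => hy0n l)
    · rintro ((j | l) | (l | l | l))
      · -- Y
        refine ⟨MvPolynomial.X (Sum.inr (G.i j)), 0, ?_, ?_⟩
        · simp [hζ, hY0]
        · simp [ht, ← hy0Y]
      · exact ⟨MvPolynomial.X (Sum.inl l), 0, by simp [hζ], by simp [ht]⟩
      · exact ⟨MvPolynomial.X (Sum.inr l), 0, by simp [hf], by simp [hq0]⟩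
      · exact hinv l
      · refine ⟨∏ l', MvPolynomial.X (Sum.inr l'), 1, ?_, ?_⟩
        · rw [pow_one, hsE, map_prod]
          simp only [Sum.elim_inr, hf, aeval_X]
          field_simp
        · rw [pow_one, hsC, map_prod]
          simp only [Sum.elim_inr, hq0, eval_X]
          field_simp
  obtain ⟨z0, hz0, hz0'⟩ := hb (t q₀) q0 hpt0 (htH q₀ hcU)
  -- the polynomial
  set F : (Fin n → ℂ) → ℂ → ℂ := fun u z => (Θ.map (eval (t u))).eval z with hF
  have hcoeff : ∀ u j, (Θ.map (eval (t u))).coeff j = eval (t u) (Θ.coeff j) := fun u j =>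
    Polynomial.coeff_map _ _
  have hcd : ∀ j, DifferentiableOn ℂ (fun u => eval (t u) (Θ.coeff j)) U := fun j =>
    diff_eval htd (Θ.coeff j)
  have hdeg : ∀ u ∈ U, (Θ.map (eval (t u))).natDegree = Θ.natDegree := fun u hu =>
    Polynomial.natDegree_map_of_leadingCoeff_ne_zero _ (ha (t u) (htP u hu) (htH u hu)).1
  obtain ⟨d, hd⟩ : ∃ d, Θ.natDegree = d + 1 := by
    have : Θ.natDegree ≠ 0 := by
      intro h0
      have h3 := hdeg q₀ hcU
      rw [h0] at h3
      have h4 := Polynomial.eq_C_of_natDegree_eq_zero h3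
      rw [h4, Polynomial.eval_C, hcoeff] at hz0
      apply (ha (t q₀) (htP q₀ hcU) (htH q₀ hcU)).1
      rw [Polynomial.leadingCoeff, h0]
      exact hz0
    exact ⟨Θ.natDegree - 1, by omega⟩
  have hFsum : ∀ u ∈ U, ∀ z, F u z = ∑ j ∈ Finset.range (d + 2), eval (t u) (Θ.coeff j) * z ^ j := by
    intro u hu z
    simp only [hF]
    rw [Polynomial.eval_eq_sum_range, hdeg u hu, hd]
    simp only [hcoeff]
  have hFc : ContDiffOn ℂ 1 (fun p : (Fin n → ℂ) × ℂ => F p.1 p.2) (U ×ˢ Set.univ) := by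
    have hopen : IsOpen (U ×ˢ (Set.univ : Set ℂ)) := isOpen_ball.prod isOpen_univ
    have h3 : DifferentiableOn ℂ (fun p : (Fin n → ℂ) × ℂ => F p.1 p.2) (U ×ˢ Set.univ) := by
      have h4 : DifferentiableOn ℂ (fun p : (Fin n → ℂ) × ℂ =>
          ∑ j ∈ Finset.range (d + 2), eval (t p.1) (Θ.coeff j) * p.2 ^ j) (U ×ˢ Set.univ) := by
        refine DifferentiableOn.fun_sum fun j _ => ?_
        have h5 : DifferentiableOn ℂ (fun p : (Fin n → ℂ) × ℂ => eval (t p.1) (Θ.coeff j)) (U ×ˢ Set.univ) :=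
          (hcd j).comp differentiableOn_fst fun p hp => hp.1
        exact h5.mul (differentiableOn_snd.pow j)
      exact h4.congr fun p hp => hFsum p.1 hp.1 p.2
    exact_mod_cast Sq58.Holo.contDiffOn_of_differentiableOn hopen h3 1
  have hprop : ∀ C : Set (Fin n → ℂ), C ⊆ U → IsCompact C → ∀ M : ℝ, ∃ B : ℝ, ∀ s ∈ C, ∀ z,
      ‖F s z‖ ≤ M → ‖z‖ ≤ B := by
    intro C hCU hC M
    rcases C.eq_empty_or_nonempty with rfl | hne
    · exact ⟨0, fun s hs => absurd hs (Set.notMem_empty _)⟩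
    have hbd : ∀ j, ∃ A : ℝ, ∀ s ∈ C, ‖eval (t s) (Θ.coeff j)‖ ≤ A := fun j =>
      hC.exists_bound_of_continuousOn ((hcd j).continuousOn.mono hCU)
    choose A hA using hbd
    obtain ⟨s1, hs1, hmin⟩ := hC.exists_isMinOn hne (((hcd (d + 1)).continuousOn.mono hCU).norm)
    have hm : 0 < ‖eval (t s1) (Θ.coeff (d + 1))‖ := by
      rw [norm_pos_iff]
      have := (ha (t s1) (htP s1 (hCU hs1)) (htH s1 (hCU hs1))).1
      rwa [Polynomial.leadingCoeff, hd] at this
    have hAnn : ∀ j, 0 ≤ A j := fun j => (norm_nonneg _).trans (hA j s1 hs1)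
    set A' : ℝ := ∑ j ∈ Finset.range (d + 2), A j with hA'
    have hA'0 : 0 ≤ A' := Finset.sum_nonneg fun j _ => hAnn j
    refine ⟨(|M| + (d + 1) * A') / ‖eval (t s1) (Θ.coeff (d + 1))‖ + 1, fun s hs z hz => ?_⟩
    refine root_bound (p := Θ.map (eval (t s))) (d := d) ?_ hm (abs_nonneg M) hA'0 ?_ ?_ (hz.trans (le_abs_self M))
    · rw [hdeg s (hCU hs), hd]
    · rw [hcoeff]
      exact hmin hs
    · intro j
      rw [hcoeff]
      by_cases hj : j < d + 2
      · exact (hA j s hs).trans (Finset.single_le_sum (fun i _ => hAnn i) (Finset.mem_range.2 hj))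
      · rw [Polynomial.coeff_eq_zero_of_natDegree_lt (by omega), map_zero, norm_zero]
        exact hA'0
  have hsimple : ∀ s ∈ U, ∀ z, F s z = 0 → deriv (F s) z ≠ 0 := by
    intro s hs z hz
    have h3 := (ha (t s) (htP s hs) (htH s hs)).2 z hz
    simp only [hF]
    rwa [Polynomial.deriv]
  obtain ⟨Z, hZd, hZc, hZ, -⟩ := Pool.Agent.H713R3.ZA.ROOT.main U F isOpen_ball (convex_ball q₀ ρ) hFc hprop
    hsimple q₀ hcU z0 hz0
  -- the family
  set q : (Fin n → ℂ) → Fin n ⊕ (Fin n ⊕ Unit) → ℂ := fun u k =>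
    ((g k).map (eval (t u))).eval (Z u) / eval (t u) H1 with hq
  have hqP : ∀ u ∈ U, Sum.elim (t u) (q u) ∈ Pt (Sum.elim ζ f) := fun u hu =>
    hc (t u) (htP u hu) (htH u hu) (Z u) (hZ u hu)
  refine ⟨fun u l => q u (Sum.inl l), ?_, ?_, ?_⟩
  · rw [differentiableOn_pi]
    intro l
    simp only [hq, div_eq_mul_inv]
    refine DifferentiableOn.mul ?_ ((diff_eval htd H1).inv htH)
    have h3 : ∀ p : Polynomial (MvPolynomial (Fin c ⊕ Fin n) ℂ),
        DifferentiableOn ℂ (fun u => (p.map (eval (t u))).eval (Z u)) U := by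
      intro p
      induction p using Polynomial.induction_on' with
      | add p q hp hq =>
        simp only [Polynomial.map_add, Polynomial.eval_add]
        exact hp.add hq
      | monomial m a =>
        simp only [Polynomial.map_monomial, Polynomial.eval_monomial]
        exact (diff_eval htd a).mul (hZd.pow m)
    exact h3 _
  · funext l
    simp only [hq]
    rw [hZc, ← hz0' (Sum.inl l), mul_div_cancel_left₀ _ (htH q₀ hcU)]
    rfl
  · intro u hu
    have hP := hqP u hu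
    have hyinv : ∀ l, q u (Sum.inl l) * q u (Sum.inr (Sum.inl l)) = 1 := by
      intro l
      have := hP (MvPolynomial.X (Sum.inr (Sum.inl l)) * MvPolynomial.X (Sum.inr (Sum.inr (Sum.inl l))) - 1) (by
        simp only [map_sub, map_mul, aeval_X, map_one, Sum.elim_inr, hf, Sum.elim_inl]
        rw [mul_inv_cancel₀ (G.hy l), sub_self])
      simp only [map_sub, map_mul, eval_X, map_one, Sum.elim_inr] at this
      linear_combination this
    have hyn : ∀ l, q u (Sum.inl l) ≠ 0 := by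
      intro l h
      have := hyinv l
      rw [h, zero_mul] at this
      exact zero_ne_one this
    -- transport of relations
    set r : Fin n ⊕ Fin n → (Fin c ⊕ Fin n) ⊕ (Fin n ⊕ (Fin n ⊕ Unit)) :=
      Sum.elim (fun l => Sum.inl (Sum.inr l)) (fun l => Sum.inr (Sum.inl l)) with hr
    have hrE : (Sum.elim ζ f) ∘ r = Sum.elim G.x G.y := by
      funext i
      rcases i with l | l
      · simp [hr, hζ]
      · simp [hr, hf]
    have hrC : (Sum.elim (t u) (q u)) ∘ r = Sum.elim (X u) (fun l => q u (Sum.inl l)) := by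
      funext i
      rcases i with l | l
      · simp [hr, ht]
      · simp [hr]
    refine ⟨?_, hyn, ?_, ?_⟩
    · intro g' hg'
      have := hP (rename r g') (by rw [aeval_rename, hrE]; exact hg')
      rwa [eval_rename, hrC] at this
    · intro j
      have := hP (MvPolynomial.X (Sum.inl (Sum.inl j)) - MvPolynomial.X (Sum.inr (Sum.inl (G.i j)))) (by
        simp only [map_sub, aeval_X, Sum.elim_inl, Sum.elim_inr, hζ, hf, hY0]
        rw [sub_self])
      simp only [map_sub, eval_X, Sum.elim_inl, Sum.elim_inr, ht] at this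
      linear_combination -this
    · intro h0
      have := hP (rename r H * MvPolynomial.X (Sum.inr (Sum.inr (Sum.inr ()))) - 1) (by
        simp only [map_sub, map_mul, aeval_X, map_one, Sum.elim_inr, hf]
        have hE : aeval (Sum.elim ζ (Sum.elim G.y (Sum.elim (fun l => (G.y l)⁻¹)
            (fun _ => (aeval (Sum.elim G.x G.y) H)⁻¹)))) (rename r H) = aeval (Sum.elim G.x G.y) H := by
          rw [← hf, aeval_rename, hrE]
        rw [hE, mul_inv_cancel₀ hH, sub_self])
      simp only [map_sub, map_mul, eval_X, map_one, Sum.elim_inr] at this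
      rw [eval_rename, hrC, h0, zero_mul, zero_sub, neg_eq_zero] at this
      exact one_ne_zero this

end Pool.Agent.Q98.EL
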