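import Pool.Agent.Q2.EL.FLD2
import Pool.Agent.Q195.EL.COL
import Pool.Agent.Q72.EL.Stm3

/-! Project EL (helper72), JOB FLD3: the function field of a variety of any dimension `D ≥ n` over a projection of
dimension `n - c` (port of `Pool.Agent.Q2.EL.fld`), and the theorem for all translates (port of `Pool.Agent.Q195.EL.main`). -/

set_option autoImplicit false
set_option linter.style.haveILetI false

namespace Pool.Agent.Q98.ELQ

open MvPolynomial Pool.Agent.Q72 Pool.Agent.Q72.EL Pool.Agent.W333.ECV Pool.Agent.Q98.EG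
open Pool.Agent.Q2.EL (trdeg_adjoin exists_basis)

open Pool.Agent.Y563.SE (Trs)

open Pool.Agent.Q72.MX (act ta eval_ta trs_eq fA fB)

theorem fld3 : S_fld3 := by
  classical
  intro n c D I V hV hdim hnD hcn hproj
  obtain ⟨hI, hVeq, hne⟩ := hV
  obtain ⟨E, iE, aE, ξ, hξ, hgen⟩ := exists_field I hI
  set x : Fin n → E := fun i => ξ (Sum.inl i) with hx
  set y : Fin n → E := fun i => ξ (Sum.inr i) with hy
  have hxy : Sum.elim x y = ξ := by
    funext i
    rcases i with i | i <;> rfl
  have hVmem : ∀ p : Fin n ⊕ Fin n → ℂ, p ∈ V ↔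
      (∀ f ∈ I, eval p f = 0) ∧ ∀ j : Fin n, p (Sum.inr j) ≠ 0 := by
    intro p; rw [hVeq]; rfl
  obtain ⟨p0, hp0⟩ := hne
  have hPV : ∀ f, f ∈ I ↔ ∀ p ∈ V, eval p f = 0 := by
    intro f
    constructor
    · intro hf p hp
      exact ((hVmem p).mp hp).1 f hf
    · intro hf
      refine nullst I hI (∏ i : Fin n, X (Sum.inr i)) ?_ f ?_
      · intro hg
        have := ((hVmem p0).mp hp0).1 _ hg
        rw [map_prod, Finset.prod_eq_zero_iff] at this
        obtain ⟨i, -, hi⟩ := this
        rw [eval_X] at hi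
        exact ((hVmem p0).mp hp0).2 i hi
      · intro p hp hg
        apply hf
        rw [hVmem]
        refine ⟨hp, fun j hj => hg ?_⟩
        rw [map_prod]
        apply Finset.prod_eq_zero (Finset.mem_univ j)
        rw [eval_X]; exact hj
  have ha : ∀ f, aeval (Sum.elim x y) f = 0 ↔ ∀ p ∈ V, eval p f = 0 := by
    intro f
    rw [hxy]
    exact (hξ f).trans (hPV f)
  have hax : ∀ g : MvPolynomial (Fin n) ℂ,
      aeval x g = 0 ↔ ∀ p ∈ V, eval (fun l => p (Sum.inl l)) g = 0 := by
    intro g
    have h1 : aeval x g = aeval (Sum.elim x y) (rename Sum.inl g) := by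
      rw [aeval_rename, Sum.elim_comp_inl]
    rw [h1, ha]
    refine forall₂_congr fun p _ => ?_
    rw [eval_rename]
    rfl
  have hyn : ∀ l, y l ≠ 0 := by
    intro l h
    have h1 := (ha (X (Sum.inr l))).mp (by rw [aeval_X]; exact h) p0 hp0
    rw [eval_X] at h1
    exact ((hVmem p0).mp hp0).2 l h1
  have htop : IntermediateField.adjoin ℂ (Set.range (Sum.elim x y)) = ⊤ := by
    rw [eq_top_iff]
    intro u _
    have hmem : ∀ f : MvPolynomial (Fin n ⊕ Fin n) ℂ,
        aeval ξ f ∈ IntermediateField.adjoin ℂ (Set.range (Sum.elim x y)) := by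
      intro f
      rw [hxy]
      induction f using MvPolynomial.induction_on with
      | C a => rw [aeval_C]; exact IntermediateField.algebraMap_mem _ _
      | add p q hp hq => rw [map_add]; exact add_mem hp hq
      | mul_X p i hp =>
        rw [map_mul, aeval_X]
        exact mul_mem hp (IntermediateField.subset_adjoin _ _ ⟨i, rfl⟩)
    obtain ⟨f, g, hg, hu⟩ := hgen u
    rw [eq_div_of_mul_eq hg hu]
    exact div_mem (hmem f) (hmem g)
  have hind : ∀ J : Finset (Fin n ⊕ Fin n), Pool.Agent.Q72.EG.IndepV V J ↔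
      AlgebraicIndependent ℂ (fun j : J => Sum.elim x y j) := by
    intro J
    constructor
    · intro h
      rw [algebraicIndependent_iff]
      intro f hf
      have h1 : rename (Subtype.val : J → Fin n ⊕ Fin n) f = 0 := by
        apply h
        · intro k hk
          obtain ⟨b, -, rfl⟩ := Finset.mem_image.mp (vars_rename Subtype.val f hk)
          exact b.2
        · rw [← ha, aeval_rename]
          exact hf
      exact rename_injective _ Subtype.val_injective (by rw [h1, map_zero])
    · intro h f hfv hf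
      rw [← ha] at hf
      rw [algebraicIndependent_iff] at h
      obtain ⟨g, hg⟩ := exists_rename_eq_of_vars_subset_range f (Subtype.val : J → Fin n ⊕ Fin n)
        Subtype.val_injective (by
          rw [Subtype.range_coe]
          exact_mod_cast hfv)
      have h1 : g = 0 := by
        apply h
        rw [← hg, aeval_rename] at hf
        exact hf
      rw [← hg, h1, map_zero]
  have hindx : ∀ J : Finset (Fin n), (∀ f : MvPolynomial (Fin n) ℂ, f.vars ⊆ J →
      (∀ p ∈ V, eval (fun l => p (Sum.inl l)) f = 0) → f = 0) ↔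
      AlgebraicIndependent ℂ (fun j : J => x j) := by
    intro J
    constructor
    · intro h
      rw [algebraicIndependent_iff]
      intro f hf
      have h1 : rename (Subtype.val : J → Fin n) f = 0 := by
        apply h
        · intro k hk
          obtain ⟨b, -, rfl⟩ := Finset.mem_image.mp (vars_rename Subtype.val f hk)
          exact b.2
        · rw [← hax, aeval_rename]
          exact hf
      exact rename_injective _ Subtype.val_injective (by rw [h1, map_zero])
    · intro h f hfv hf
      rw [← hax] at hf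
      rw [algebraicIndependent_iff] at h
      obtain ⟨g, hg⟩ := exists_rename_eq_of_vars_subset_range f (Subtype.val : J → Fin n)
        Subtype.val_injective (by
          rw [Subtype.range_coe]
          exact_mod_cast hfv)
      have h1 : g = 0 := by
        apply h
        rw [← hg, aeval_rename] at hf
        exact hf
      rw [← hg, h1, map_zero]
  obtain ⟨⟨J, hJc, hJ⟩, hdim2⟩ := hdim
  have hEn : Algebra.trdeg ℂ E = (D : Cardinal) := by
    apply le_antisymm
    · exact trdeg_le_of_dep (Sum.elim x y) htop D fun J hJ h => hdim2 J hJ ((hind J).mpr h)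
    · refine le_trans ?_ ((hind J).mp hJ).cardinalMk_le_trdeg
      rw [Cardinal.mk_coe_finset, hJc]
  obtain ⟨⟨Jx, hJxc, hJx⟩, hproj2⟩ := hproj
  have hK : Algebra.trdeg ℂ (IntermediateField.adjoin ℂ (Set.range x)) =
      ((n - c : ℕ) : Cardinal) := by
    refine trdeg_adjoin x (n - c) ⟨Jx, hJxc, (hindx Jx).mp hJx⟩ fun J hJ h => ?_
    obtain ⟨f, hf1, hf2, hf3⟩ := hproj2 J hJ
    exact hf3 ((hindx J).mpr h f hf1 hf2)
  obtain ⟨c', hcc', hEK⟩ : ∃ c' : ℕ, c ≤ c' ∧
      Algebra.trdeg (IntermediateField.adjoin ℂ (Set.range x)) E = (c' : Cardinal) := by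
    have h3 := trdeg_add_eq (A := E) ℂ (IntermediateField.adjoin ℂ (Set.range x))
    rw [hK, hEn] at h3
    have h4 : Algebra.trdeg (IntermediateField.adjoin ℂ (Set.range x)) E < Cardinal.aleph0 := by
      refine lt_of_le_of_lt ?_ (Cardinal.natCast_lt_aleph0 (n := D))
      rw [← h3]
      exact self_le_add_left _ _
    obtain ⟨r, hr⟩ := Cardinal.lt_aleph0.mp h4
    rw [hr] at h3
    have h5 : (n - c) + r = D := by exact_mod_cast h3
    exact ⟨r, by omega, hr⟩
  obtain ⟨i, hi1, hi2⟩ := exists_basis htop hEK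
  refine ⟨c', E, iE, aE, x, y, i, hcc', ha, ?_, hyn, hi1, hi2, ?_⟩
  · intro p
    rw [hVmem]
    refine and_congr_left fun _ => ?_
    constructor
    · intro h g hg
      rw [hxy, hξ] at hg
      exact h g hg
    · intro h f hf
      apply h
      rw [hxy, hξ]
      exact hf
  · set K := IntermediateField.adjoin ℂ (Set.range x) with hKdef
    let x' : Fin n → K := fun i => ⟨x i, IntermediateField.subset_adjoin _ _ ⟨i, rfl⟩⟩
    have h1 : RingHom.ker (aeval x : MvPolynomial (Fin n) ℂ →ₐ[ℂ] E) =
        RingHom.ker (aeval x' : MvPolynomial (Fin n) ℂ →ₐ[ℂ] K) := by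
      ext g
      rw [RingHom.mem_ker, RingHom.mem_ker]
      have h3 : K.val (aeval x' g) = aeval (fun k => K.val (x' k)) g :=
        MvPolynomial.comp_aeval_apply _ K.val g
      have h4 : K.val (aeval x' g) = aeval x g := h3
      rw [← h4]
      exact map_eq_zero_iff K.val Subtype.val_injective
    rw [h1]
    have h2 := trdeg_le_of_injective
      (Ideal.kerLiftAlg (aeval x' : MvPolynomial (Fin n) ℂ →ₐ[ℂ] K))
      (Ideal.kerLiftAlg_injective _)
    rw [hK] at h2
    refine (add_le_add_left h2 _).trans ?_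
    have h5 : n - c + c = n := by omega
    exact_mod_cast h5.le

theorem main3 (h1 : S_fld3) (hc : S_cut) (h2 : S_ff) : S_main3 := by
  intro n c D I V hV hdim hnD hcn hproj hH d hd
  obtain ⟨c', E, iE, aE, x, y, i, hcc', hxy, hpt, hy, hind, halg, htr⟩ :=
    h1 n c D I V hV hdim hnD hcn hproj
  intro H hHne
  obtain ⟨p, hp, hpH⟩ := hHne
  rw [trs_eq] at hp
  obtain ⟨u, hu, rfl⟩ := hp
  have hta : aeval (Sum.elim x y) (ta d H) ≠ 0 := by
    intro h
    apply hpH
    rw [← eval_ta]
    exact (hxy _).1 h u hu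
  obtain ⟨E', iE', aE', x', y', i', hy', hind', halg', hx', hxy', hta'⟩ :=
    hc n c c' E x y i hcc' hy hind halg (ta d H) hta
  have hkx : RingHom.ker (aeval x' : MvPolynomial (Fin n) ℂ →ₐ[ℂ] E') =
      RingHom.ker (aeval x : MvPolynomial (Fin n) ℂ →ₐ[ℂ] E) := by
    ext g
    rw [RingHom.mem_ker, RingHom.mem_ker]
    exact hx' g
  have hker : projIdeal V = RingHom.ker (aeval x' : MvPolynomial (Fin n) ℂ →ₐ[ℂ] E') := by
    rw [hkx]
    ext g
    rw [RingHom.mem_ker]
    have e1 : (aeval (Sum.elim x y)) (rename Sum.inl g) = aeval x g := by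
      rw [aeval_rename]
      rfl
    have e2 := hxy (rename Sum.inl g)
    rw [e1] at e2
    rw [e2]
    constructor
    · intro hg p hp
      rw [eval_rename]
      exact hg p hp
    · intro hg p hp
      have := hg p hp
      rw [eval_rename] at this
      exact this
  obtain ⟨z, hz1, hz2⟩ := h2 n c E' x' y' i' hy' hind' halg' (by rw [hkx]; exact htr)
    (by rw [← hker]; exact hH) (ta d H) hta'
    (fun l => Complex.exp (d (Sum.inl l)) / d (Sum.inr l))
    (fun l => div_ne_zero (Complex.exp_ne_zero _) (hd l))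
  have hz1' : (Sum.elim z fun l => Complex.exp (d (Sum.inl l)) / d (Sum.inr l) *
      Complex.exp (z l)) ∈ EG.Pt (Sum.elim x y) := fun g hg => hz1 g (hxy' g hg)
  have hmem : (Sum.elim z fun l => Complex.exp (d (Sum.inl l)) / d (Sum.inr l) *
      Complex.exp (z l)) ∈ V := by
    rw [hpt]
    refine ⟨hz1', fun j => ?_⟩
    simp only [Sum.elim_inr]
    exact mul_ne_zero (div_ne_zero (Complex.exp_ne_zero _) (hd j)) (Complex.exp_ne_zero _)
  have hact : act d (Sum.elim z fun l => Complex.exp (d (Sum.inl l)) / d (Sum.inr l) *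
      Complex.exp (z l)) = Sum.elim (fun l => z l + d (Sum.inl l))
        (fun l => Complex.exp (z l + d (Sum.inl l))) := by
    funext s
    rcases s with s | s
    · simp [act, fA, fB]
    · have := hd s
      simp only [act, fA, fB, Sum.elim_inr, add_zero]
      rw [Complex.exp_add]
      field_simp
  refine ⟨fun l => z l + d (Sum.inl l), ?_, ?_⟩
  · rw [trs_eq, ← hact]
    exact ⟨_, hmem, rfl⟩
  · rw [eval_ta, hact] at hz2
    exact hz2

end Pool.Agent.Q98.ELQ
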