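import Mathlib
import Pool.Agent.H266R3.LDef

/-! The dual lifting property equivariant under all linear isometries, its invariance under
isometric isomorphisms, and the case of `ℓ_1`. -/

set_option autoImplicit false

open Pool.Agent.H266R3.LF

open scoped ENNReal

namespace Q98.EL

/-- There is a bounded linear projection of `Lip_0(X)` onto `X*` which commutes with the
composition with every surjective linear isometry of `X`. -/
def HasEDL (X : Type) [NormedAddCommGroup X] [NormedSpace ℝ X] : Prop :=
  ∃ P : Lip0 X (0 : X) →L[ℝ] StrongDual ℝ X,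
    (∀ (φ : StrongDual ℝ X) (f : Lip0 X (0 : X)), (∀ x, f.fn x = φ x) → P f = φ) ∧
    ∀ (g : X ≃ₗᵢ[ℝ] X) (f f' : Lip0 X (0 : X)), (∀ x, f'.fn x = f.fn (g x)) →
      ∀ x, P f' x = P f (g x)

section Transfer

variable {X Y : Type} [NormedAddCommGroup X] [NormedSpace ℝ X] [NormedAddCommGroup Y]
  [NormedSpace ℝ Y]

/-- composition with an isometry -/
noncomputable def comp (e : X ≃ₗᵢ[ℝ] Y) : Lip0 Y (0 : Y) →L[ℝ] Lip0 X (0 : X) :=
  LinearMap.mkContinuous
    { toFun := fun f => Lip0.mk (fun x => f.fn (e x)) (by simp) ‖f‖ (norm_nonneg f) (fun x y => by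
        have := f.abs_sub_le (e x) (e y)
        rwa [e.dist_map] at this)
      map_add' := fun _ _ => rfl
      map_smul' := fun _ _ => rfl } 1 (fun f => by
        rw [one_mul]
        refine Lip0.norm_le' _ (norm_nonneg f) fun x y => ?_
        have := f.abs_sub_le (e x) (e y)
        rwa [e.dist_map] at this)

@[simp] lemma comp_fn (e : X ≃ₗᵢ[ℝ] Y) (f : Lip0 Y (0 : Y)) (x : X) :
    (comp e f).fn x = f.fn (e x) := rfl

theorem HasEDL.congr (h : HasEDL X) (e : X ≃ₗᵢ[ℝ] Y) : HasEDL Y := by
  obtain ⟨P, h1, h2⟩ := h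
  let c : StrongDual ℝ X →L[ℝ] StrongDual ℝ Y :=
    (ContinuousLinearMap.compL ℝ Y X ℝ).flip (e.symm.toContinuousLinearEquiv : Y →L[ℝ] X)
  have hc : ∀ φ y, c φ y = φ (e.symm y) := fun φ y => rfl
  refine ⟨(c.comp P).comp (comp e), ?_, ?_⟩
  · intro φ f hf
    have h3 := h1 (φ.comp (e.toContinuousLinearEquiv : X →L[ℝ] Y)) (comp e f) (fun x => by
      rw [comp_fn, hf]; rfl)
    ext y
    show P (comp e f) (e.symm y) = φ y
    rw [h3]
    show φ (e (e.symm y)) = φ y
    rw [e.apply_symm_apply]
  · intro g f f' hf y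
    show P (comp e f') (e.symm y) = P (comp e f) (e.symm (g y))
    have h3 := h2 ((e.trans g).trans e.symm) (comp e f) (comp e f') (fun x => by
      rw [comp_fn, comp_fn, hf]
      congr 1
      show _ = e (e.symm (g (e x)))
      rw [e.apply_symm_apply]) (e.symm y)
    rw [h3]
    congr 1
    show e.symm (g (e (e.symm y))) = _
    rw [e.apply_symm_apply]

end Transfer

section One

/-- `ℓ_1` -/
abbrev L1 : Type := lp (fun _ : ℕ => ℝ) 1

/-- unit vectors -/
noncomputable def e (i : ℕ) : L1 := lp.single 1 i (1 : ℝ)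

lemma e_apply (i j : ℕ) : e i j = if j = i then 1 else 0 := by
  rw [e, lp.single_apply, Pi.single_apply]

lemma summ (x : L1) : Summable fun i => |x i| := by
  have := (lp.memℓp x).summable (by norm_num)
  simpa using this

lemma norm_eq (x : L1) : ‖x‖ = ∑' i, |x i| := by
  have := lp.norm_eq_tsum_rpow (p := 1) (by norm_num) x
  simpa using this

lemma norm_e (i : ℕ) : ‖e i‖ = 1 := by
  rw [e, lp.norm_single (by norm_num)]; simp

/-- If `u + v` is a unit vector and `‖u‖ + ‖v‖ = 1`, then `u` is a multiple of it. -/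
lemma flat {u v : L1} {i : ℕ} (h : u + v = e i) (hn : ‖u‖ + ‖v‖ ≤ 1) : u = u i • e i := by
  have h1 : ∀ j, u j + v j = if j = i then 1 else 0 := by
    intro j
    rw [← e_apply, ← h]; rfl
  have h2 : ∀ j, j ≠ i → u j = 0 := by
    intro j hj
    have h3 : |u i| + |u j| ≤ ‖u‖ := by
      rw [norm_eq]
      have := (summ u).sum_le_tsum {i, j} (fun _ _ => abs_nonneg _)
      rwa [Finset.sum_pair hj.symm] at this
    have h4 : |v i| ≤ ‖v‖ := by
      rw [norm_eq]
      exact (summ v).le_tsum i (fun _ _ => abs_nonneg _)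
    have h5 : 1 ≤ |u i| + |v i| := by
      have := h1 i
      rw [if_pos rfl] at this
      rw [← abs_one, ← this]
      exact abs_add_le _ _
    have h6 : |u j| ≤ 0 := by linarith
    exact abs_nonpos_iff.1 h6
  ext j
  show u j = u i * e i j
  rw [e_apply]
  by_cases hj : j = i
  · rw [hj, if_pos rfl, mul_one]
  · rw [h2 j hj, if_neg hj, mul_zero]

/-- A linear isometry of `ℓ_1` onto itself maps unit vectors to signed unit vectors. -/
lemma isom_e (g : L1 ≃ₗᵢ[ℝ] L1) (i : ℕ) : ∃ j, g (e i) = e j ∨ g (e i) = - e j := by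
  set x := g (e i) with hx
  have hxn : ‖x‖ = 1 := by rw [hx, g.norm_map, norm_e]
  have hx0 : x ≠ 0 := by
    intro h
    rw [h, norm_zero] at hxn
    exact zero_ne_one hxn
  obtain ⟨j, hj⟩ : ∃ j, x j ≠ 0 := by
    by_contra hcon
    push Not at hcon
    exact hx0 (by ext j; exact hcon j)
  -- split off the coordinate `j`
  set a : L1 := x j • e j with ha
  set b : L1 := x - a with hb
  have hbj : ∀ k, b k = if k = j then 0 else x k := by
    intro k
    show x k - x j * e j k = _
    rw [e_apply]
    by_cases hk : k = j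
    · rw [hk]; simp
    · simp [hk]
  have hna : ‖a‖ = |x j| := by rw [ha, norm_smul, norm_e, mul_one, Real.norm_eq_abs]
  have hnb : |x j| + ‖b‖ = ‖x‖ := by
    rw [norm_eq, norm_eq, (summ x).tsum_eq_add_tsum_ite j]
    congr 1
    refine tsum_congr fun k => ?_
    rw [hbj]
    by_cases hk : k = j <;> simp [hk]
  have hab : g.symm a + g.symm b = e i := by
    rw [← map_add, hb, add_sub_cancel, hx, g.symm_apply_apply]
  have hn : ‖g.symm a‖ + ‖g.symm b‖ ≤ 1 := by
    rw [g.symm.norm_map, g.symm.norm_map, hna, hnb, hxn]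
  have h1 := flat hab hn
  set c := (g.symm a) i with hc
  have h2 : a = c • x := by
    have := congrArg g h1
    rwa [g.apply_symm_apply, map_smul, ← hx] at this
  have h3 : c = 1 := by
    have h4 : a j = c * x j := by
      conv_lhs => rw [h2]
      rfl
    have h5 : a j = x j := by
      show x j * e j j = x j
      rw [e_apply, if_pos rfl, mul_one]
    have h6 : (c - 1) * x j = 0 := by linarith
    rcases mul_eq_zero.1 h6 with h | h
    · linarith
    · exact absurd h hj
  rw [h3, one_smul] at h2
  have h7 : |x j| = 1 := by rw [← hna, h2, hxn]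
  refine ⟨j, ?_⟩
  rw [← h2, ha]
  rcases (abs_eq zero_le_one).1 h7 with h | h
  · left; rw [h, one_smul]
  · right; rw [h, neg_one_smul]

/-- half of the difference of the values at `± e_i` -/
noncomputable def dd (f : Lip0 L1 (0 : L1)) (i : ℕ) : ℝ := (f.fn (e i) - f.fn (-e i)) / 2

lemma dd_le (f : Lip0 L1 (0 : L1)) (i : ℕ) : |dd f i| ≤ ‖f‖ := by
  have h1 := f.abs_sub_le (e i) (-e i)
  have h2 : dist (e i) (-e i) = 2 := by
    rw [dist_eq_norm, sub_neg_eq_add, ← two_smul ℝ, norm_smul, norm_e]; norm_num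
  rw [h2] at h1
  rw [dd, abs_div, abs_two]
  linarith

lemma summ_dd (f : Lip0 L1 (0 : L1)) (x : L1) : Summable fun i => dd f i * x i := by
  refine Summable.of_norm_bounded ((summ x).mul_left ‖f‖) fun i => ?_
  rw [Real.norm_eq_abs, abs_mul]
  exact mul_le_mul_of_nonneg_right (dd_le f i) (abs_nonneg _)

/-- the projection -/
noncomputable def PP (f : Lip0 L1 (0 : L1)) : StrongDual ℝ L1 :=
  LinearMap.mkContinuous
    { toFun := fun x => ∑' i, dd f i * x i
      map_add' := fun x y => by
        rw [← (summ_dd f x).tsum_add (summ_dd f y)]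
        refine tsum_congr fun i => ?_
        show dd f i * (x i + y i) = _
        ring
      map_smul' := fun c x => by
        rw [RingHom.id_apply, smul_eq_mul, ← tsum_mul_left]
        refine tsum_congr fun i => ?_
        show dd f i * (c * x i) = _
        ring } ‖f‖ (fun x => by
      show ‖∑' i, dd f i * x i‖ ≤ _
      rw [norm_eq, ← tsum_mul_left]
      refine tsum_of_norm_bounded ((summ x).mul_left ‖f‖).hasSum fun i => ?_
      rw [Real.norm_eq_abs, abs_mul]
      exact mul_le_mul_of_nonneg_right (dd_le f i) (abs_nonneg _))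

lemma PP_apply (f : Lip0 L1 (0 : L1)) (x : L1) : PP f x = ∑' i, dd f i * x i := rfl

lemma PP_norm_le (f : Lip0 L1 (0 : L1)) : ‖PP f‖ ≤ ‖f‖ := by
  refine ContinuousLinearMap.opNorm_le_bound _ (norm_nonneg f) fun x => ?_
  rw [PP_apply, norm_eq, ← tsum_mul_left]
  refine tsum_of_norm_bounded ((summ x).mul_left ‖f‖).hasSum fun i => ?_
  rw [Real.norm_eq_abs, abs_mul]
  exact mul_le_mul_of_nonneg_right (dd_le f i) (abs_nonneg _)

lemma PP_e (f : Lip0 L1 (0 : L1)) (i : ℕ) : PP f (e i) = dd f i := by
  rw [PP_apply, tsum_eq_single i]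
  · rw [e_apply, if_pos rfl, mul_one]
  · intro j hj
    rw [e_apply, if_neg hj, mul_zero]

/-- two functionals which agree at the unit vectors are equal -/
lemma ext_e {φ ψ : StrongDual ℝ L1} (h : ∀ i, φ (e i) = ψ (e i)) : φ = ψ := by
  ext x
  have h1 := lp.hasSum_single (p := 1) (by norm_num) x
  have h2 := h1.mapL φ
  have h3 := h1.mapL ψ
  have h4 : ∀ i, φ (lp.single 1 i (x i)) = ψ (lp.single 1 i (x i)) := by
    intro i
    have h5 : lp.single 1 i (x i) = x i • e i := by
      rw [e, ← lp.single_smul]; simp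
    rw [h5, map_smul, map_smul, h]
  exact h2.unique (by simpa only [h4] using h3)

theorem hasEDL_one : HasEDL L1 := by
  refine ⟨LinearMap.mkContinuous
    { toFun := PP
      map_add' := fun f g => by
        apply ext_e
        intro i
        rw [add_apply, PP_e, PP_e, PP_e]
        unfold dd
        rw [Lip0.fn_add, Lip0.fn_add]
        ring
      map_smul' := fun c f => by
        apply ext_e
        intro i
        rw [RingHom.id_apply, smul_apply, PP_e, PP_e]
        unfold dd
        rw [Lip0.fn_smul, Lip0.fn_smul, smul_eq_mul]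
        ring } 1 (fun f => by
      rw [one_mul]
      exact PP_norm_le f), ?_, ?_⟩
  · intro φ f hf
    show PP f = φ
    apply ext_e
    intro i
    rw [PP_e]
    unfold dd
    rw [hf, hf, map_neg]
    ring
  · intro g f f' hf x
    show PP f' x = PP f (g x)
    have h1 : PP f' = (PP f).comp (g.toContinuousLinearEquiv : L1 →L[ℝ] L1) := by
      apply ext_e
      intro i
      show PP f' (e i) = PP f (g (e i))
      rw [PP_e]
      unfold dd
      rw [hf, hf, map_neg]
      obtain ⟨j, hj | hj⟩ := isom_e g i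
      · rw [hj, PP_e]; rfl
      · rw [hj, map_neg, PP_e, neg_neg]
        unfold dd
        ring
    rw [h1]; rfl

end One

end Q98.EL
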