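import Pool.Agent.Q98.EL.Base

/-! Spaces with a `p`-decomposition into infinitely many exchangeable pieces, `p > 1`, fail the
equivariant dual lifting property. -/

set_option autoImplicit false

open Pool.Agent.H266R3.LF

open scoped ENNReal

namespace Q98.EL

/-- a `p`-decomposition of `X`: `T B` is the part over the set `B` of indices -/
structure PDec (p : ℝ) {X : Type} [NormedAddCommGroup X] [NormedSpace ℝ X]
    (T : Set ℕ → X →ₗ[ℝ] X) : Prop where
  univ : ∀ x, T Set.univ x = x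
  add : ∀ A B, Disjoint A B → ∀ x, ‖T (A ∪ B) x‖ ^ p = ‖T A x‖ ^ p + ‖T B x‖ ^ p
  perm : ∀ σ : Equiv.Perm ℕ, ∃ g : X ≃ₗᵢ[ℝ] X, (∀ B x, ‖T B (g x)‖ = ‖T (σ ⁻¹' B) x‖) ∧
    (∀ i, σ i = i → ∀ x, T {i} (g x) = T {i} x) ∧ ∀ i, σ i = i → ∀ x, T {i} x = x → g x = x
  sign : ∀ j, ∃ g : X ≃ₗᵢ[ℝ] X, (∀ B x, ‖T B (g x)‖ = ‖T B x‖) ∧
    (∀ i, i ≠ j → ∀ x, T {i} (g x) = T {i} x) ∧ ∀ x, T {j} x = x → g x = -x
  vec : ∀ i, ∃ v : X, ‖v‖ = 1 ∧ T {i} v = v

lemma pow_diff {p : ℝ} (hp : 1 ≤ p) {a b : ℝ} (ha : 0 ≤ a) (hb : 0 ≤ b) :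
    |a ^ p - b ^ p| ≤ p * (max a b) ^ (p - 1) * |a - b| := by
  wlog h : b ≤ a generalizing a b with H
  · have := H hb ha (not_le.1 h).le
    rwa [abs_sub_comm, max_comm, abs_sub_comm b a] at this
  rw [max_eq_left h, abs_of_nonneg (sub_nonneg.2 h),
    abs_of_nonneg (sub_nonneg.2 (Real.rpow_le_rpow hb h (by linarith)))]
  rcases ha.eq_or_lt with rfl | ha
  · have : b = 0 := le_antisymm h hb
    rw [this]; simp
  have h1 : -1 ≤ b / a - 1 := by
    have : 0 ≤ b / a := by positivity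
    linarith
  have h2 := one_add_mul_self_le_rpow_one_add h1 hp
  rw [add_sub_cancel, Real.div_rpow hb ha.le] at h2
  have h3 : 0 < a ^ p := Real.rpow_pos_of_pos ha p
  rw [le_div_iff₀ h3] at h2
  have h4 : a ^ (p - 1) * a = a ^ p := by
    rw [← Real.rpow_add_one ha.ne']; congr 1; ring
  have h5 : (b / a - 1) * a ^ p = a ^ (p - 1) * (b - a) := by
    rw [← h4]; field_simp
  have h6 : (1 + p * (b / a - 1)) * a ^ p = a ^ p + p * ((b / a - 1) * a ^ p) := by ring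
  rw [h6, h5] at h2
  nlinarith

section Lip

variable {X : Type} [NormedAddCommGroup X] [NormedSpace ℝ X] {p : ℝ}

lemma ratio_diff {T : X →ₗ[ℝ] X} (hT : ∀ x, ‖T x‖ ≤ ‖x‖) {x y : X} (hx : x ≠ 0) (hy : y ≠ 0) :
    ‖x‖ * |‖T x‖ / ‖x‖ - ‖T y‖ / ‖y‖| ≤ 2 * ‖x - y‖ := by
  have hxp : 0 < ‖x‖ := norm_pos_iff.2 hx
  have hyp : 0 < ‖y‖ := norm_pos_iff.2 hy
  have e2 : ‖x‖ * (‖T x‖ / ‖x‖ - ‖T y‖ / ‖y‖) = ‖T x‖ - ‖T ((‖x‖ / ‖y‖) • y)‖ := by
    rw [map_smul, norm_smul, Real.norm_eq_abs, abs_of_pos (by positivity)]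
    field_simp
  have e5 : ‖x‖ * |‖T x‖ / ‖x‖ - ‖T y‖ / ‖y‖| = |‖x‖ * (‖T x‖ / ‖x‖ - ‖T y‖ / ‖y‖)| := by
    rw [abs_mul, abs_of_pos hxp]
  rw [e5, e2]
  refine (abs_norm_sub_norm_le _ _).trans ?_
  rw [← map_sub]
  refine (hT _).trans ?_
  have e3 : x - (‖x‖ / ‖y‖) • y = (x - y) + ((‖y‖ - ‖x‖) / ‖y‖) • y := by
    have : ((‖y‖ - ‖x‖) / ‖y‖) = 1 - ‖x‖ / ‖y‖ := by field_simp
    rw [this, sub_smul, one_smul]; abel
  rw [e3]
  refine (norm_add_le _ _).trans ?_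
  have e4 : ‖((‖y‖ - ‖x‖) / ‖y‖) • y‖ = |‖y‖ - ‖x‖| := by
    rw [norm_smul, Real.norm_eq_abs, abs_div, abs_of_pos hyp]
    field_simp
  rw [e4, norm_sub_rev]
  have := abs_norm_sub_norm_le y x
  linarith

/-- the functions used -/
noncomputable def F (p : ℝ) (φ : X →ₗ[ℝ] ℝ) (T : X →ₗ[ℝ] X) (x : X) : ℝ :=
  φ x * (‖T x‖ / ‖x‖) ^ p

lemma F_zero (φ : X →ₗ[ℝ] ℝ) (T : X →ₗ[ℝ] X) : F p φ T 0 = 0 := by simp [F]

lemma ratio_mem {T : X →ₗ[ℝ] X} (hT : ∀ x, ‖T x‖ ≤ ‖x‖) (x : X) :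
    0 ≤ ‖T x‖ / ‖x‖ ∧ ‖T x‖ / ‖x‖ ≤ 1 :=
  ⟨by positivity, div_le_one_of_le₀ (hT x) (norm_nonneg x)⟩

lemma ratio_pow_mem (hp : 1 ≤ p) {T : X →ₗ[ℝ] X} (hT : ∀ x, ‖T x‖ ≤ ‖x‖) (x : X) :
    0 ≤ (‖T x‖ / ‖x‖) ^ p ∧ (‖T x‖ / ‖x‖) ^ p ≤ 1 :=
  ⟨Real.rpow_nonneg (ratio_mem hT x).1 p,
    Real.rpow_le_one (ratio_mem hT x).1 (ratio_mem hT x).2 (by linarith)⟩

/-- a finite sum of the functions -/
lemma sum_lip (hp : 1 ≤ p) {ι : Type} (s : Finset ι) (φ : ι → X →ₗ[ℝ] ℝ) (T : ι → X →ₗ[ℝ] X)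
    (hT : ∀ i ∈ s, ∀ x, ‖T i x‖ ≤ ‖x‖) (hφ : ∀ i ∈ s, ∀ x, |φ i x| ≤ ‖T i x‖)
    (hs : ∀ x, x ≠ 0 → ∑ i ∈ s, (‖T i x‖ / ‖x‖) ^ p ≤ 1) (x y : X) :
    |∑ i ∈ s, F p (φ i) (T i) x - ∑ i ∈ s, F p (φ i) (T i) y| ≤ (4 * p + 1) * dist x y := by
  have hle : ∀ z, |∑ i ∈ s, F p (φ i) (T i) z| ≤ ‖z‖ := by
    intro z
    rcases eq_or_ne z 0 with rfl | hz
    · simp [F_zero]
    calc |∑ i ∈ s, F p (φ i) (T i) z| ≤ ∑ i ∈ s, |F p (φ i) (T i) z| :=
          Finset.abs_sum_le_sum_abs _ _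
      _ ≤ ∑ i ∈ s, ‖z‖ * (‖T i z‖ / ‖z‖) ^ p := by
          refine Finset.sum_le_sum fun i hi => ?_
          have h1 := ratio_pow_mem hp (hT i hi) z
          rw [F, abs_mul, abs_of_nonneg h1.1]
          exact mul_le_mul_of_nonneg_right ((hφ i hi z).trans (hT i hi z)) h1.1
      _ = ‖z‖ * ∑ i ∈ s, (‖T i z‖ / ‖z‖) ^ p := by rw [Finset.mul_sum]
      _ ≤ ‖z‖ * 1 := mul_le_mul_of_nonneg_left (hs z hz) (norm_nonneg z)
      _ = ‖z‖ := mul_one _
  have hF0 : ∑ i ∈ s, F p (φ i) (T i) (0 : X) = 0 := by simp [F_zero]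
  rw [dist_eq_norm]
  rcases eq_or_ne x 0 with rfl | hx
  · rw [hF0, zero_sub, abs_neg, zero_sub, norm_neg]
    nlinarith [hle y, norm_nonneg y]
  rcases eq_or_ne y 0 with rfl | hy
  · rw [hF0, sub_zero, sub_zero]
    nlinarith [hle x, norm_nonneg x]
  rw [← Finset.sum_sub_distrib]
  have hxp : 0 < ‖x‖ := norm_pos_iff.2 hx
  have key : ∀ i ∈ s, |F p (φ i) (T i) x - F p (φ i) (T i) y|
      ≤ 2 * p * ‖x - y‖ * ((‖T i x‖ / ‖x‖) ^ p + (‖T i y‖ / ‖y‖) ^ p)
        + ‖x - y‖ * (‖T i y‖ / ‖y‖) ^ p := by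
    intro i hi
    set a : ℝ := ‖T i x‖ / ‖x‖ with ha
    set b : ℝ := ‖T i y‖ / ‖y‖ with hb
    have ha0 : 0 ≤ a := (ratio_mem (hT i hi) x).1
    have hb0 : 0 ≤ b := (ratio_mem (hT i hi) y).1
    have hbp := (ratio_pow_mem hp (hT i hi) y)
    rw [← hb] at hbp
    have e1 : F p (φ i) (T i) x - F p (φ i) (T i) y
        = φ i x * (a ^ p - b ^ p) + φ i (x - y) * b ^ p := by
      rw [F, F, map_sub]; ring
    rw [e1]
    refine (abs_add_le _ _).trans (add_le_add ?_ ?_)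
    · rw [abs_mul]
      have h1 : |φ i x| ≤ ‖x‖ * a := by
        refine (hφ i hi x).trans (le_of_eq ?_)
        rw [ha]; field_simp
      have h2 := pow_diff hp ha0 hb0
      have h3 := ratio_diff (hT i hi) hx hy
      rw [← ha, ← hb] at h3
      set M := max a b with hM
      have hM0 : 0 ≤ M := ha0.trans (le_max_left _ _)
      have h4 : a * M ^ (p - 1) ≤ M ^ p := by
        calc a * M ^ (p - 1) ≤ M * M ^ (p - 1) :=
              mul_le_mul_of_nonneg_right (le_max_left _ _) (Real.rpow_nonneg hM0 _)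
          _ = M ^ p := by
              rcases hM0.eq_or_lt with h0 | h0
              · rw [← h0, zero_mul, Real.zero_rpow (by linarith)]
              · rw [mul_comm, ← Real.rpow_add_one h0.ne']; congr 1; ring
      have h5 : M ^ p ≤ a ^ p + b ^ p := by
        rcases max_choice a b with h | h
        · rw [hM, h]; linarith [Real.rpow_nonneg hb0 p]
        · rw [hM, h]; linarith [Real.rpow_nonneg ha0 p]
      have hMp : 0 ≤ M ^ (p - 1) := Real.rpow_nonneg hM0 _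
      calc |φ i x| * |a ^ p - b ^ p| ≤ (‖x‖ * a) * (p * M ^ (p - 1) * |a - b|) :=
            mul_le_mul h1 h2 (abs_nonneg _) (by positivity)
        _ = p * (a * M ^ (p - 1)) * (‖x‖ * |a - b|) := by ring
        _ ≤ p * (a ^ p + b ^ p) * (2 * ‖x - y‖) := by
            refine mul_le_mul ?_ h3 (by positivity) ?_
            · exact mul_le_mul_of_nonneg_left (h4.trans h5) (by linarith)
            · have := Real.rpow_nonneg ha0 p
              have := Real.rpow_nonneg hb0 p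
              positivity
        _ = _ := by ring
    · rw [abs_mul, abs_of_nonneg hbp.1]
      exact mul_le_mul_of_nonneg_right ((hφ i hi _).trans (hT i hi _)) hbp.1
  calc |∑ i ∈ s, (F p (φ i) (T i) x - F p (φ i) (T i) y)|
      ≤ ∑ i ∈ s, |F p (φ i) (T i) x - F p (φ i) (T i) y| := Finset.abs_sum_le_sum_abs _ _
    _ ≤ ∑ i ∈ s, (2 * p * ‖x - y‖ * ((‖T i x‖ / ‖x‖) ^ p + (‖T i y‖ / ‖y‖) ^ p)
        + ‖x - y‖ * (‖T i y‖ / ‖y‖) ^ p) := Finset.sum_le_sum key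
    _ = 2 * p * ‖x - y‖ * (∑ i ∈ s, (‖T i x‖ / ‖x‖) ^ p + ∑ i ∈ s, (‖T i y‖ / ‖y‖) ^ p)
        + ‖x - y‖ * ∑ i ∈ s, (‖T i y‖ / ‖y‖) ^ p := by
        rw [Finset.sum_add_distrib, ← Finset.mul_sum, ← Finset.mul_sum, Finset.sum_add_distrib]
    _ ≤ 2 * p * ‖x - y‖ * (1 + 1) + ‖x - y‖ * 1 := by
        have := hs x hx
        have := hs y hy
        gcongr
    _ = (4 * p + 1) * ‖x - y‖ := by ring

/-- one function -/
lemma F_lip (hp : 1 ≤ p) {φ : X →ₗ[ℝ] ℝ} {T : X →ₗ[ℝ] X} (hT : ∀ x, ‖T x‖ ≤ ‖x‖)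
    (hφ : ∀ x, |φ x| ≤ ‖x‖) (x y : X) : |F p φ T x - F p φ T y| ≤ (2 * p + 1) * dist x y := by
  have hle : ∀ z, |F p φ T z| ≤ ‖z‖ := by
    intro z
    have h1 := ratio_pow_mem hp hT z
    rw [F, abs_mul, abs_of_nonneg h1.1]
    calc |φ z| * (‖T z‖ / ‖z‖) ^ p ≤ ‖z‖ * 1 := mul_le_mul (hφ z) h1.2 h1.1 (norm_nonneg z)
      _ = ‖z‖ := mul_one _
  rw [dist_eq_norm]
  rcases eq_or_ne x 0 with rfl | hx
  · rw [F_zero, zero_sub, abs_neg, zero_sub, norm_neg]
    nlinarith [hle y, norm_nonneg y]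
  rcases eq_or_ne y 0 with rfl | hy
  · rw [F_zero, sub_zero, sub_zero]
    nlinarith [hle x, norm_nonneg x]
  have hxp : 0 < ‖x‖ := norm_pos_iff.2 hx
  set a : ℝ := ‖T x‖ / ‖x‖ with ha
  set b : ℝ := ‖T y‖ / ‖y‖ with hb
  have ha0 : 0 ≤ a := (ratio_mem hT x).1
  have hb0 : 0 ≤ b := (ratio_mem hT y).1
  have ha1 : a ≤ 1 := (ratio_mem hT x).2
  have hb1 : b ≤ 1 := (ratio_mem hT y).2
  have hbp := ratio_pow_mem hp hT y
  rw [← hb] at hbp
  have e1 : F p φ T x - F p φ T y = φ x * (a ^ p - b ^ p) + φ (x - y) * b ^ p := by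
    rw [F, F, map_sub]; ring
  rw [e1]
  have h2 := pow_diff hp ha0 hb0
  have h3 := ratio_diff hT hx hy
  rw [← ha, ← hb] at h3
  have h4 : (max a b) ^ (p - 1) ≤ 1 :=
    Real.rpow_le_one (ha0.trans (le_max_left _ _)) (max_le ha1 hb1) (by linarith)
  have h5 : |a ^ p - b ^ p| ≤ p * |a - b| := by
    refine h2.trans ?_
    have : p * (max a b) ^ (p - 1) ≤ p * 1 := mul_le_mul_of_nonneg_left h4 (by linarith)
    rw [mul_one] at this
    exact mul_le_mul_of_nonneg_right this (abs_nonneg _)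
  calc |φ x * (a ^ p - b ^ p) + φ (x - y) * b ^ p|
      ≤ |φ x| * |a ^ p - b ^ p| + |φ (x - y)| * b ^ p := by
        refine (abs_add_le _ _).trans ?_
        rw [abs_mul, abs_mul, abs_of_nonneg hbp.1]
    _ ≤ ‖x‖ * (p * |a - b|) + ‖x - y‖ * 1 := by
        refine add_le_add ?_ ?_
        · exact mul_le_mul (hφ x) h5 (abs_nonneg _) (norm_nonneg x)
        · exact mul_le_mul (hφ _) hbp.2 hbp.1 (norm_nonneg _)
    _ = p * (‖x‖ * |a - b|) + ‖x - y‖ := by ring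
    _ ≤ p * (2 * ‖x - y‖) + ‖x - y‖ := by
        have := mul_le_mul_of_nonneg_left h3 (show 0 ≤ p by linarith)
        linarith
    _ = _ := by ring

end Lip

/-- Two infinite sets with infinite complements not containing `i` are related by a permutation
fixing `i`. -/
lemma exists_perm_sets {A B : Set ℕ} {k : ℕ} (hA : A.Infinite) (hA' : Aᶜ.Infinite)
    (hB : B.Infinite) (hB' : Bᶜ.Infinite) (hA0 : k ∉ A) (hB0 : k ∉ B) :
    ∃ σ : Equiv.Perm ℕ, σ k = k ∧ σ ⁻¹' B = A := by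
  classical
  have := hA.to_subtype
  have := hA'.to_subtype
  have := hB.to_subtype
  have := hB'.to_subtype
  obtain ⟨e⟩ := nonempty_equiv_of_countable (α := A) (β := B)
  obtain ⟨e'⟩ := nonempty_equiv_of_countable (α := (Aᶜ : Set ℕ)) (β := (Bᶜ : Set ℕ))
  set σ : Equiv.Perm ℕ := (Equiv.Set.sumCompl A).symm.trans
    ((e.sumCongr e').trans (Equiv.Set.sumCompl B)) with hσ
  have h1 : ∀ i, σ i ∈ B ↔ i ∈ A := by
    intro i
    by_cases hi : i ∈ A
    · have : σ i = e ⟨i, hi⟩ := by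
        simp [hσ, Equiv.Set.sumCompl_symm_apply_of_mem hi]
      rw [this]
      exact ⟨fun _ => hi, fun _ => (e ⟨i, hi⟩).2⟩
    · have : σ i = e' ⟨i, hi⟩ := by
        simp [hσ, Equiv.Set.sumCompl_symm_apply_of_notMem hi]
      rw [this]
      exact ⟨fun h => absurd h (e' ⟨i, hi⟩).2, fun h => absurd h hi⟩
  have h0 : σ k ∉ B := fun h => hA0 ((h1 k).1 h)
  refine ⟨σ.trans (Equiv.swap (σ k) k), by simp, ?_⟩
  ext i
  rw [Set.mem_preimage, Equiv.trans_apply, ← h1]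
  rcases eq_or_ne (σ i) (σ k) with h | h
  · rw [h, Equiv.swap_apply_left]
    exact ⟨fun h' => absurd h' hB0, fun h' => absurd h' h0⟩
  · rcases eq_or_ne (σ i) k with h' | h'
    · rw [h', Equiv.swap_apply_right]
      exact ⟨fun h' => absurd h' h0, fun h' => absurd h' hB0⟩
    · rw [Equiv.swap_apply_of_ne_of_ne h h']

/-- A set of indices which is infinite, with infinite complement, and does not contain `k`. -/
structure Good (k : ℕ) (A : Set ℕ) : Prop where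
  inf : A.Infinite
  inf' : Aᶜ.Infinite
  zero : k ∉ A

/-- a finitely additive set function which is invariant under permutations fixing `k` is
concentrated at `k` -/
lemma concentrated {k : ℕ} (m : Set ℕ → ℝ)
    (m_union : ∀ A B, Disjoint A B → m (A ∪ B) = m A + m B)
    (m_perm : ∀ (σ : Equiv.Perm ℕ) (B : Set ℕ), σ k = k → m B = m (σ ⁻¹' B)) :
    m {k} = m Set.univ := by
  have m_good : ∀ {A B : Set ℕ}, Good k A → Good k B → m A = m B := by
    intro A B hA hB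
    obtain ⟨σ, h0, h1⟩ := exists_perm_sets hA.inf hA.inf' hB.inf hB.inf' hA.zero hB.zero
    rw [m_perm σ B h0, h1]
  set A : Set ℕ := {n | n % 3 = 1 ∧ n ≠ k} with hA
  set B : Set ℕ := {n | n % 3 = 2 ∧ n ≠ k} with hB
  set C : Set ℕ := {n | n % 3 = 0 ∧ n ≠ k} with hC
  have infA : A.Infinite := Set.infinite_of_injective_forall_mem
    (f := fun n : ℕ => 3 * (n + k) + 1) (fun x y h => by simpa using h)
    (fun n => ⟨by show (3 * (n + k) + 1) % 3 = 1; omega, by show 3 * (n + k) + 1 ≠ k; omega⟩)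
  have infB : B.Infinite := Set.infinite_of_injective_forall_mem
    (f := fun n : ℕ => 3 * (n + k) + 2) (fun x y h => by simpa using h)
    (fun n => ⟨by show (3 * (n + k) + 2) % 3 = 2; omega, by show 3 * (n + k) + 2 ≠ k; omega⟩)
  have infC : C.Infinite := Set.infinite_of_injective_forall_mem
    (f := fun n : ℕ => 3 * (n + k) + 3) (fun x y h => by simpa using h)
    (fun n => ⟨by show (3 * (n + k) + 3) % 3 = 0; omega, by show 3 * (n + k) + 3 ≠ k; omega⟩)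
  have gA : Good k A := ⟨infA, infB.mono fun n (h : n % 3 = 2 ∧ n ≠ k)
    (h' : n % 3 = 1 ∧ n ≠ k) => by omega, fun h => h.2 rfl⟩
  have gB : Good k B := ⟨infB, infA.mono fun n (h : n % 3 = 1 ∧ n ≠ k)
    (h' : n % 3 = 2 ∧ n ≠ k) => by omega, fun h => h.2 rfl⟩
  have gC : Good k C := ⟨infC, infA.mono fun n (h : n % 3 = 1 ∧ n ≠ k)
    (h' : n % 3 = 0 ∧ n ≠ k) => by omega, fun h => h.2 rfl⟩
  have gAB : Good k (A ∪ B) := ⟨infA.mono Set.subset_union_left,
    infC.mono fun n (h : n % 3 = 0 ∧ n ≠ k) (h' : (n % 3 = 1 ∧ n ≠ k) ∨ (n % 3 = 2 ∧ n ≠ k)) => by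
      omega,
    fun h => by
      rcases h with h | h
      · exact gA.zero h
      · exact gB.zero h⟩
  have dAB : Disjoint A B := Set.disjoint_left.2
    fun n (h : n % 3 = 1 ∧ n ≠ k) (h' : n % 3 = 2 ∧ n ≠ k) => by omega
  have dABC : Disjoint (A ∪ B) C := Set.disjoint_left.2
    fun n (h : (n % 3 = 1 ∧ n ≠ k) ∨ (n % 3 = 2 ∧ n ≠ k)) (h' : n % 3 = 0 ∧ n ≠ k) => by omega
  have d0 : Disjoint ({k} : Set ℕ) ((A ∪ B) ∪ C) := Set.disjoint_left.2
    fun n (h : n = k) (h' : ((n % 3 = 1 ∧ n ≠ k) ∨ (n % 3 = 2 ∧ n ≠ k)) ∨ (n % 3 = 0 ∧ n ≠ k)) => by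
      omega
  have hun : (Set.univ : Set ℕ) = {k} ∪ ((A ∪ B) ∪ C) := by
    ext n
    simp only [Set.mem_univ, Set.mem_union, Set.mem_singleton_iff, true_iff, hA, hB, hC,
      Set.mem_ofPred_eq]
    omega
  have t1 : m (A ∪ B) = m A + m B := m_union _ _ dAB
  have t2 : m (A ∪ B) = m A := m_good gAB gA
  have t3 : m B = m A := m_good gB gA
  have t4 : m C = m A := m_good gC gA
  have t7 : m Set.univ = m {k} + (m (A ∪ B) + m C) := by
    rw [hun, m_union _ _ d0, m_union _ _ dABC]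
  linarith

section Main

variable {X : Type} [NormedAddCommGroup X] [NormedSpace ℝ X] {p : ℝ} {T : Set ℕ → X →ₗ[ℝ] X}

lemma PDec.add_compl (h : PDec p T) (B : Set ℕ) (x : X) :
    ‖x‖ ^ p = ‖T B x‖ ^ p + ‖T Bᶜ x‖ ^ p := by
  rw [← h.add B Bᶜ disjoint_compl_right, Set.union_compl_self, h.univ]

lemma PDec.norm_le (h : PDec p T) (hp : 1 < p) (B : Set ℕ) (x : X) : ‖T B x‖ ≤ ‖x‖ := by
  have h1 := h.add_compl B x
  have h2 : 0 ≤ ‖T Bᶜ x‖ ^ p := Real.rpow_nonneg (norm_nonneg _) _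
  rw [← Real.rpow_le_rpow_iff (norm_nonneg _) (norm_nonneg _) (show 0 < p by linarith)]
  linarith

lemma PDec.compl_eq (h : PDec p T) (hp : 1 < p) {i : ℕ} {v : X} (hv : T {i} v = v) :
    T {i}ᶜ v = 0 := by
  have h1 := h.add_compl {i} v
  rw [hv] at h1
  have h2 : ‖T {i}ᶜ v‖ ^ p = 0 := by linarith
  rw [Real.rpow_eq_zero (norm_nonneg _) (by linarith)] at h2
  exact norm_eq_zero.1 h2

lemma PDec.other_eq (h : PDec p T) (hp : 1 < p) {i j : ℕ} (hij : j ≠ i) {v : X}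
    (hv : T {i} v = v) : T {j} v = 0 := by
  have h1 := h.add {i} {j} (by simpa using hij.symm) v
  have h2 := Real.rpow_le_rpow (norm_nonneg _) (h.norm_le hp ({i} ∪ {j}) v)
    (show 0 ≤ p by linarith)
  rw [h1, hv] at h2
  have h3 := Real.rpow_nonneg (norm_nonneg (T {j} v)) p
  have h4 : ‖T {j} v‖ ^ p = 0 := by linarith
  rw [Real.rpow_eq_zero (norm_nonneg _) (by linarith)] at h4
  exact norm_eq_zero.1 h4

theorem PDec.not_hasEDL (h : PDec p T) (hp : 1 < p) : ¬ HasEDL X := by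
  rintro ⟨P, hP1, hP2⟩
  choose v hv1 hv2 using h.vec
  have hp1 : 1 ≤ p := hp.le
  have hp0 : 0 < p := by linarith
  -- functionals
  have hne : ∀ i, v i ≠ 0 := by
    intro i h0
    have := hv1 i
    rw [h0, norm_zero] at this
    exact zero_ne_one this
  have hex : ∀ i, ∃ ζ : StrongDual ℝ X, ‖ζ‖ = 1 ∧ ζ (v i) = ‖v i‖ := fun i =>
    exists_dual_vector ℝ (v i) (norm_ne_zero_iff.2 (hne i))
  choose ζ hζ1 hζ2 using hex
  set φ : ℕ → X →ₗ[ℝ] ℝ := fun i => (ζ i : X →ₗ[ℝ] ℝ).comp (T {i}) with hφ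
  have hφT : ∀ i x, |φ i x| ≤ ‖T {i} x‖ := by
    intro i x
    have := (ζ i).le_opNorm (T {i} x)
    rwa [hζ1, one_mul, Real.norm_eq_abs] at this
  have hφle : ∀ i x, |φ i x| ≤ ‖x‖ := fun i x => (hφT i x).trans (h.norm_le hp _ _)
  have hφv : ∀ i, φ i (v i) = 1 := by
    intro i
    show ζ i (T {i} (v i)) = 1
    rw [hv2, hζ2, hv1]
  -- the functions
  set L : ℕ → Set ℕ → Lip0 X (0 : X) := fun i B =>
    Lip0.mk (F p (φ i) (T B)) (F_zero _ _) (2 * p + 1) (by linarith)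
      (F_lip hp1 (h.norm_le hp B) (hφle i)) with hL
  have L_fn : ∀ i B x, (L i B).fn x = φ i x * (‖T B x‖ / ‖x‖) ^ p := fun i B x => rfl
  have key : ∀ i, P (L i {i}) (v i) = 1 := by
    intro i
    have h1 := concentrated (k := i) (fun B => P (L i B) (v i)) ?_ ?_
    · have h2 : P (L i {i}) (v i) = P (L i Set.univ) (v i) := h1
      rw [h2]
      have h3 : P (L i Set.univ)
          = (φ i).mkContinuous 1 (fun x => by rw [one_mul]; exact hφle i x) := by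
        apply hP1
        intro x
        rw [L_fn, h.univ]
        show _ = φ i x
        rcases eq_or_ne x 0 with rfl | hx
        · simp
        · rw [div_self (norm_ne_zero_iff.2 hx), Real.one_rpow, mul_one]
      rw [h3]
      exact hφv i
    · intro A B hAB
      have h1 : L i (A ∪ B) = L i A + L i B := by
        apply Lip0.ext
        intro x
        rw [Lip0.fn_add, L_fn, L_fn, L_fn, Real.div_rpow (norm_nonneg _) (norm_nonneg _),
          Real.div_rpow (norm_nonneg _) (norm_nonneg _),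
          Real.div_rpow (norm_nonneg _) (norm_nonneg _), h.add A B hAB, add_div]
        ring
      show P (L i (A ∪ B)) (v i) = P (L i A) (v i) + P (L i B) (v i)
      rw [h1, map_add]; rfl
    · intro σ B hσ
      obtain ⟨g, hg1, hg2, hg3⟩ := h.perm σ
      have h1 := hP2 g (L i B) (L i (σ ⁻¹' B)) (by
        intro x
        rw [L_fn, L_fn, hg1, g.norm_map]
        congr 1
        show ζ i (T {i} x) = ζ i (T {i} (g x))
        rw [hg2 i hσ]) (v i)
      rw [hg3 i hσ _ (hv2 i)] at h1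
      exact h1.symm
  have off : ∀ i j, j ≠ i → P (L i {i}) (v j) = 0 := by
    intro i j hij
    obtain ⟨g, hg1, hg2, hg3⟩ := h.sign j
    have h1 := hP2 g (L i {i}) (L i {i}) (by
      intro x
      rw [L_fn, L_fn, hg1, g.norm_map]
      congr 1
      show ζ i (T {i} x) = ζ i (T {i} (g x))
      rw [hg2 i hij.symm]) (v j)
    rw [hg3 _ (hv2 j), map_neg] at h1
    linarith
  -- the sums
  have hsum : ∀ (n : ℕ) (x : X), ∑ i ∈ Finset.range n, ‖T {i} x‖ ^ p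
      = ‖T {k | k < n} x‖ ^ p := by
    intro n x
    induction n with
    | zero =>
      have h1 : ({k | k < 0} : Set ℕ) = ∅ := by ext; simp
      have h2 := h.add_compl ∅ x
      rw [Set.compl_empty, h.univ] at h2
      rw [Finset.range_zero, Finset.sum_empty, h1]
      linarith
    | succ n ih =>
      have hs : ({k | k < n} : Set ℕ) ∪ {n} = {k | k < n + 1} := by
        ext k
        simp only [Set.mem_union, Set.mem_ofPred_eq, Set.mem_singleton_iff]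
        omega
      rw [Finset.sum_range_succ, ih, ← hs, h.add]
      rw [Set.disjoint_singleton_right]
      simp
  have hsum1 : ∀ (n : ℕ) (x : X), x ≠ 0 → ∑ i ∈ Finset.range n, (‖T {i} x‖ / ‖x‖) ^ p ≤ 1 := by
    intro n x hx
    have h1 : ∀ i ∈ Finset.range n, (‖T {i} x‖ / ‖x‖) ^ p = ‖T {i} x‖ ^ p / ‖x‖ ^ p := fun i _ =>
      Real.div_rpow (norm_nonneg _) (norm_nonneg _) p
    rw [Finset.sum_congr rfl h1, ← Finset.sum_div, hsum]
    exact div_le_one_of_le₀ (Real.rpow_le_rpow (norm_nonneg _) (h.norm_le hp _ _) hp0.le)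
      (Real.rpow_nonneg (norm_nonneg _) _)
  have hnorm : ∀ n : ℕ, ‖∑ i ∈ Finset.range n, L i {i}‖ ≤ 4 * p + 1 := by
    intro n
    have hfn : ∀ x, (∑ i ∈ Finset.range n, L i {i}).fn x
        = ∑ i ∈ Finset.range n, F p (φ i) (T {i}) x := by
      intro x
      induction n with
      | zero => rw [Finset.range_zero, Finset.sum_empty, Finset.sum_empty]; rfl
      | succ n ih => rw [Finset.sum_range_succ, Lip0.fn_add, ih, Finset.sum_range_succ]; rfl
    refine Lip0.norm_le' _ (by linarith) fun x y => ?_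
    rw [hfn, hfn]
    exact sum_lip hp1 _ φ (fun i => T {i}) (fun i _ => h.norm_le hp _) (fun i _ => hφT i)
      (hsum1 n) x y
  have hw : ∀ n : ℕ, ‖∑ i ∈ Finset.range n, v i‖ ^ p ≤ n := by
    intro n
    induction n with
    | zero => rw [Finset.range_zero, Finset.sum_empty, norm_zero, Real.zero_rpow hp0.ne']; simp
    | succ n ih =>
      have h1 := h.add_compl {n} (∑ i ∈ Finset.range (n + 1), v i)
      have h2 : T {n} (∑ i ∈ Finset.range (n + 1), v i) = v n := by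
        rw [Finset.sum_range_succ, map_add, map_sum, hv2, Finset.sum_eq_zero, zero_add]
        intro i hi
        rw [Finset.mem_range] at hi
        exact h.other_eq hp (by omega) (hv2 i)
      have h3 : T {n}ᶜ (∑ i ∈ Finset.range (n + 1), v i)
          = T {n}ᶜ (∑ i ∈ Finset.range n, v i) := by
        rw [Finset.sum_range_succ, map_add, h.compl_eq hp (hv2 n), add_zero]
      rw [h2, h3, hv1, Real.one_rpow] at h1
      have h4 := Real.rpow_le_rpow (norm_nonneg _)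
        (h.norm_le hp {n}ᶜ (∑ i ∈ Finset.range n, v i)) hp0.le
      rw [h1]
      push_cast
      linarith
  have hval : ∀ n : ℕ, P (∑ i ∈ Finset.range n, L i {i}) (∑ j ∈ Finset.range n, v j) = n := by
    intro n
    rw [map_sum, map_sum]
    have : ∀ j ∈ Finset.range n, (∑ i ∈ Finset.range n, P (L i {i})) (v j) = 1 := by
      intro j hj
      rw [sum_apply, Finset.sum_eq_single j]
      · exact key j
      · intro i _ hij
        exact off i j hij.symm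
      · intro hj'
        exact absurd hj hj'
    rw [Finset.sum_congr rfl this]
    simp
  set C : ℝ := ‖P‖ * (4 * p + 1) with hC
  have hC0 : 0 ≤ C := by positivity
  have hfin : ∀ n : ℕ, (n : ℝ) ^ p ≤ C ^ p * n := by
    intro n
    have h1 : (n : ℝ) ≤ C * ‖∑ j ∈ Finset.range n, v j‖ := by
      calc (n : ℝ) = P (∑ i ∈ Finset.range n, L i {i}) (∑ j ∈ Finset.range n, v j) :=
            (hval n).symm
        _ ≤ ‖P (∑ i ∈ Finset.range n, L i {i}) (∑ j ∈ Finset.range n, v j)‖ := Real.le_norm_self _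
        _ ≤ ‖P (∑ i ∈ Finset.range n, L i {i})‖ * ‖∑ j ∈ Finset.range n, v j‖ :=
            ContinuousLinearMap.le_opNorm _ _
        _ ≤ C * ‖∑ j ∈ Finset.range n, v j‖ := by
            refine mul_le_mul_of_nonneg_right ?_ (norm_nonneg _)
            refine (P.le_opNorm _).trans ?_
            exact mul_le_mul_of_nonneg_left (hnorm n) (norm_nonneg _)
    have h2 := Real.rpow_le_rpow (Nat.cast_nonneg n) h1 hp0.le
    rw [Real.mul_rpow hC0 (norm_nonneg _)] at h2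
    exact h2.trans (mul_le_mul_of_nonneg_left (hw n) (Real.rpow_nonneg hC0 _))
  have hlim : Filter.Tendsto (fun n : ℕ => (n : ℝ) ^ (p - 1)) Filter.atTop Filter.atTop :=
    (tendsto_rpow_atTop (show 0 < p - 1 by linarith)).comp tendsto_natCast_atTop_atTop
  obtain ⟨n, hn1, hn2⟩ := ((hlim.eventually_gt_atTop (C ^ p)).and
    (Filter.eventually_gt_atTop 0)).exists
  have hn0 : (0 : ℝ) < n := by exact_mod_cast hn2
  have h1 := hfin n
  have h2 : (n : ℝ) ^ p = (n : ℝ) ^ (p - 1) * n := by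
    rw [← Real.rpow_add_one hn0.ne']; congr 1; ring
  rw [h2] at h1
  have := le_of_mul_le_mul_right h1 hn0
  linarith

end Main

end Q98.EL
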