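import Mathlib
import Pool.Agent.H74R3.Iso

/-! All spaces `L_p(μ)`, `1 ≤ p < ∞`, over nonatomic `σ`-finite standard measure spaces are
isometric to `L_p[0,1]`. -/

set_option autoImplicit false

open MeasureTheory Set Filter
open scoped ENNReal

namespace Q98.EL

section Basic

variable {Ω Ω' : Type} [MeasurableSpace Ω] [MeasurableSpace Ω'] {μ ν : Measure Ω}
  {μ' : Measure Ω'} {p : ℝ≥0∞} [Fact (1 ≤ p)]

lemma one_le_toReal (hp : p ≠ ∞) : 1 ≤ p.toReal := by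
  have h := (Fact.out : 1 ≤ p)
  have := ENNReal.toReal_mono hp h
  simpa using this

lemma p_ne_zero : p ≠ 0 := by
  have h := (Fact.out : 1 ≤ p)
  intro h0
  rw [h0] at h
  simp at h

lemma norm_rpow (hp : p ≠ ∞) (u : Lp ℝ p μ) :
    ‖u‖ ^ p.toReal = (∫⁻ x, ‖u x‖ₑ ^ p.toReal ∂μ).toReal := by
  have h1 := one_le_toReal hp
  rw [Lp.norm_def, eLpNorm_eq_lintegral_rpow_enorm_toReal p_ne_zero hp, ENNReal.toReal_rpow,
    ← ENNReal.rpow_mul, one_div, inv_mul_cancel₀ (by linarith), ENNReal.rpow_one]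

lemma lintegral_ne_top (hp : p ≠ ∞) (u : Lp ℝ p μ) : ∫⁻ x, ‖u x‖ₑ ^ p.toReal ∂μ ≠ ∞ :=
  (lintegral_rpow_enorm_lt_top_of_eLpNorm_lt_top p_ne_zero hp (Lp.eLpNorm_lt_top u)).ne

/-- composition with an isomorphism -/
noncomputable def compIso {f : Ω → Ω'} {g : Ω' → Ω} (hf : MeasurePreserving f μ μ')
    (hg : MeasurePreserving g μ' μ) (hgf : ∀ᵐ x ∂μ, g (f x) = x) :
    Lp ℝ p μ' ≃ₗᵢ[ℝ] Lp ℝ p μ :=
  LinearIsometryEquiv.ofSurjective (Lp.compMeasurePreservingₗᵢ ℝ f hf) (by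
    intro u
    refine ⟨Lp.compMeasurePreserving g hg u, ?_⟩
    show Lp.compMeasurePreserving f hf (Lp.compMeasurePreserving g hg u) = u
    apply Lp.ext
    have h1 := Lp.coeFn_compMeasurePreserving (Lp.compMeasurePreserving g hg u) hf
    have h2 := hf.quasiMeasurePreserving.ae (Lp.coeFn_compMeasurePreserving u hg)
    filter_upwards [h1, h2, hgf] with x e1 e2 e3
    rw [e1, Function.comp_apply, e2, Function.comp_apply, e3])

lemma coeFn_compIso {f : Ω → Ω'} {g : Ω' → Ω} (hf : MeasurePreserving f μ μ')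
    (hg : MeasurePreserving g μ' μ) (hgf : ∀ᵐ x ∂μ, g (f x) = x) (u : Lp ℝ p μ') :
    compIso (p := p) hf hg hgf u =ᵐ[μ] u ∘ f :=
  Lp.coeFn_compMeasurePreserving u hf

/-- change of density -/
theorem exists_density [SigmaFinite μ] [SigmaFinite ν] (h1 : μ ≪ ν) (h2 : ν ≪ μ) (hp : p ≠ ∞) :
    Nonempty (Lp ℝ p μ ≃ₗᵢ[ℝ] Lp ℝ p ν) := by
  have hp1 := one_le_toReal hp
  set q := p.toReal with hq
  have hq0 : 0 < q := by linarith
  set r : Ω → ℝ≥0∞ := μ.rnDeriv ν with hr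
  have hrm : Measurable r := μ.measurable_rnDeriv ν
  have hrt : ∀ᵐ x ∂ν, r x < ∞ := μ.rnDeriv_lt_top ν
  have hr0 : ∀ᵐ x ∂ν, 0 < r x := by
    have := Measure.rnDeriv_pos' h2
    exact this
  have hwd : ν.withDensity r = μ := Measure.withDensity_rnDeriv_eq μ ν h1
  have hint : ∀ g : Ω → ℝ≥0∞, AEMeasurable g ν → ∫⁻ x, g x ∂μ = ∫⁻ x, r x * g x ∂ν := by
    intro g hg
    rw [← hwd, lintegral_withDensity_eq_lintegral_mul₀ hrm.aemeasurable hg]
    rfl
  set w : Ω → ℝ := fun x => (r x).toReal ^ (1 / q) with hw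
  have hwm : Measurable w := (hrm.ennreal_toReal).pow_const _
  have hwr : ∀ᵐ x ∂ν, ‖w x‖ₑ ^ q = r x := by
    filter_upwards [hrt] with x hx
    rw [hw, Real.enorm_of_nonneg (by positivity), ENNReal.ofReal_rpow_of_nonneg (by positivity)
      hq0.le, ← Real.rpow_mul ENNReal.toReal_nonneg, one_div, inv_mul_cancel₀ hq0.ne',
      Real.rpow_one, ENNReal.ofReal_toReal hx.ne]
  have hw0 : ∀ᵐ x ∂ν, w x ≠ 0 := by
    filter_upwards [hrt, hr0] with x hx hx0
    exact (Real.rpow_pos_of_pos (ENNReal.toReal_pos hx0.ne' hx.ne) _).ne'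
  have hstr : ∀ u : Lp ℝ p μ, AEStronglyMeasurable u ν := fun u =>
    (Lp.aestronglyMeasurable u).mono_ac h2
  have hnorm : ∀ u : Lp ℝ p μ, ∫⁻ x, ‖w x * u x‖ₑ ^ q ∂ν = ∫⁻ x, ‖u x‖ₑ ^ q ∂μ := by
    intro u
    rw [hint _ ((hstr u).enorm.pow_const q)]
    refine lintegral_congr_ae ?_
    filter_upwards [hwr] with x hx
    rw [enorm_mul, ENNReal.mul_rpow_of_nonneg _ _ hq0.le, hx]
  have hmem : ∀ u : Lp ℝ p μ, MemLp (fun x => w x * u x) p ν := by
    intro u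
    refine ⟨hwm.aestronglyMeasurable.mul (hstr u), ?_⟩
    rw [eLpNorm_lt_top_iff_lintegral_rpow_enorm_lt_top p_ne_zero hp, hnorm]
    exact (lintegral_ne_top hp u).lt_top
  let Φ : Lp ℝ p μ →ₗ[ℝ] Lp ℝ p ν :=
    { toFun := fun u => (hmem u).toLp
      map_add' := fun u v => by
        apply Lp.ext
        filter_upwards [(hmem (u + v)).coeFn_toLp, Lp.coeFn_add ((hmem u).toLp) ((hmem v).toLp),
          (hmem u).coeFn_toLp, (hmem v).coeFn_toLp, h2.ae_le (Lp.coeFn_add u v)] with x e1 e2 e3 e4 e5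
        rw [e1, e2, Pi.add_apply, e3, e4, e5, Pi.add_apply]
        ring
      map_smul' := fun c u => by
        apply Lp.ext
        filter_upwards [(hmem (c • u)).coeFn_toLp, Lp.coeFn_smul c ((hmem u).toLp),
          (hmem u).coeFn_toLp, h2.ae_le (Lp.coeFn_smul c u)] with x e1 e2 e3 e5
        rw [e1, RingHom.id_apply, e2, Pi.smul_apply, e3, e5, Pi.smul_apply, smul_eq_mul,
          smul_eq_mul]
        ring }
  have hΦn : ∀ u, ‖Φ u‖ = ‖u‖ := by
    intro u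
    have e1 : ‖Φ u‖ ^ q = ‖u‖ ^ q := by
      rw [norm_rpow hp, norm_rpow hp, ← hq, ← hnorm u]
      congr 1
      refine lintegral_congr_ae ?_
      filter_upwards [(hmem u).coeFn_toLp] with x e1
      show ‖((hmem u).toLp : Ω → ℝ) x‖ₑ ^ q = _
      rw [e1]
    exact (Real.rpow_left_inj (norm_nonneg _) (norm_nonneg _) hq0.ne').1 e1
  refine ⟨LinearIsometryEquiv.ofSurjective ⟨Φ, hΦn⟩ ?_⟩
  intro v
  have hm : AEStronglyMeasurable (fun x => (w x)⁻¹ * v x) μ :=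
    (hwm.inv.aestronglyMeasurable).mul ((Lp.aestronglyMeasurable v).mono_ac h1)
  have hv : MemLp (fun x => (w x)⁻¹ * v x) p μ := by
    refine ⟨hm, ?_⟩
    rw [eLpNorm_lt_top_iff_lintegral_rpow_enorm_lt_top p_ne_zero hp, ← hq,
      hint _ ((hm.mono_ac h2).enorm.pow_const q)]
    refine lt_of_eq_of_lt ?_ (lintegral_ne_top hp v).lt_top
    refine lintegral_congr_ae ?_
    filter_upwards [hwr, hw0] with x hx hx0
    rw [← hx, ← ENNReal.mul_rpow_of_nonneg _ _ hq0.le, ← enorm_mul, ← mul_assoc,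
      mul_inv_cancel₀ hx0, one_mul]
  refine ⟨hv.toLp, ?_⟩
  show (hmem hv.toLp).toLp = v
  apply Lp.ext
  filter_upwards [(hmem hv.toLp).coeFn_toLp, h2.ae_le hv.coeFn_toLp, hw0] with x e1 e2 hx0
  rw [e1, e2, ← mul_assoc, mul_inv_cancel₀ hx0, one_mul]

end Basic

open Pool.Agent.H74R3 in
/-- **Isomorphism theorem.** -/
theorem exists_iso {Ω : Type} [MeasurableSpace Ω] [StandardBorelSpace Ω] [Nonempty Ω]
    (μ : Measure Ω) [SigmaFinite μ] [NullSingletonClass μ] (h0 : μ ≠ 0) {p : ℝ≥0∞}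
    [Fact (1 ≤ p)] (hp : p ≠ ∞) :
    Nonempty (Lp ℝ p μ ≃ₗᵢ[ℝ] Lp ℝ p (volume.restrict (Icc (0:ℝ) 1))) := by
  obtain ⟨ν, hν, h1, h2⟩ := exists_isFiniteMeasure_absolutelyContinuous μ
  have hν0 : ν univ ≠ 0 := by
    intro h
    apply h0
    rw [Measure.measure_univ_eq_zero] at h
    rw [h] at h1
    exact Measure.absolutelyContinuous_zero_iff.1 h1
  have hνt : ν univ ≠ ∞ := measure_ne_top ν univ
  set ρ : Measure Ω := (ν univ)⁻¹ • ν with hρ
  have hc0 : (ν univ)⁻¹ ≠ 0 := ENNReal.inv_ne_zero.2 hνt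
  have hct : (ν univ)⁻¹ ≠ ∞ := ENNReal.inv_ne_top.2 hν0
  have h3 : μ ≪ ρ := by
    intro s hs
    rw [hρ, Measure.smul_apply, smul_eq_mul, mul_eq_zero] at hs
    exact h1 (hs.resolve_left hc0)
  have h4 : ρ ≪ μ := by
    intro s hs
    rw [hρ, Measure.smul_apply, smul_eq_mul, h2 hs, mul_zero]
  have hρu : ρ univ = 1 := by
    rw [hρ, Measure.smul_apply, smul_eq_mul, ENNReal.inv_mul_cancel hν0 hνt]
  have hρf : IsFiniteMeasure ρ := ⟨by rw [hρu]; exact ENNReal.one_lt_top⟩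
  have hρn : NullSingletonClass ρ := ⟨fun x => h4 (measure_singleton x)⟩
  obtain ⟨e1⟩ := exists_density h3 h4 hp
  obtain ⟨C', D', f, g, hC', hD', -, hD2, hC3, hD3, hPI⟩ := exists_iso_interval (μ := ρ)
    (C := univ) MeasurableSet.univ (by rw [hρu]; exact ENNReal.one_lt_top)
  rw [hρu, ENNReal.toReal_one] at hD2 hD3
  set κ : Measure ℝ := volume.restrict (Icc (0:ℝ) 1) with hκ
  have hCae : ∀ᵐ x ∂ρ, x ∈ C' := by
    rw [ae_iff]
    rw [← Set.compl_eq_univ_sdiff] at hC3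
    exact hC3
  have hDae : ∀ E : Set ℝ, MeasurableSet E → κ E = volume (E ∩ D') := by
    intro E hE
    rw [hκ, Measure.restrict_apply hE]
    refine measure_congr ?_
    have e2 : (Ioo (0:ℝ) 1 : Set ℝ) =ᵐ[volume] Icc (0:ℝ) 1 := Ioo_ae_eq_Icc
    have e3 : D' =ᵐ[volume] (Ioo (0:ℝ) 1 : Set ℝ) := by
      refine Filter.EventuallyLE.antisymm (Filter.Eventually.of_forall hD2) ?_
      rw [ae_le_set]
      exact hD3
    exact (ae_eq_refl E).inter (e3.trans e2).symm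
  have hfm : MeasurePreserving f ρ κ := by
    refine ⟨hPI.fm, ?_⟩
    ext E hE
    rw [Measure.map_apply hPI.fm hE, hDae E hE, ← hPI.mp (E ∩ D') (hE.inter hD') inter_subset_right]
    refine measure_congr ?_
    filter_upwards [hCae] with x hx
    apply propext
    constructor
    · intro h
      exact ⟨hx, h, hPI.fC hx⟩
    · intro h
      exact h.2.1
  have hPI' := hPI.symm hD'
  have hgm : MeasurePreserving g κ ρ := by
    refine ⟨hPI.gm, ?_⟩
    ext E hE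
    rw [Measure.map_apply hPI.gm hE, hDae _ (hPI.gm hE)]
    have e2 : ρ E = ρ (E ∩ C') := by
      refine measure_congr ?_
      filter_upwards [hCae] with x hx
      apply propext
      exact ⟨fun h => ⟨h, hx⟩, fun h => h.1⟩
    rw [e2, ← hPI'.mp (E ∩ C') (hE.inter hC') inter_subset_right]
    congr 1
    ext y
    constructor
    · rintro ⟨h5, h6⟩
      exact ⟨h6, h5, hPI.gD h6⟩
    · rintro ⟨h6, h5, -⟩
      exact ⟨h5, h6⟩
  have hfg : ∀ᵐ y ∂κ, f (g y) = y := by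
    rw [ae_iff]
    have hm : MeasurableSet {y | ¬ f (g y) = y} :=
      (measurableSet_eq_fun (hPI.fm.comp hPI.gm) measurable_id).compl
    rw [hDae _ hm]
    have : {y | ¬ f (g y) = y} ∩ D' = ∅ := by
      ext y
      simp only [mem_inter_iff, mem_ofPred_eq, mem_empty_iff_false, iff_false, not_and]
      intro h5 h6
      exact h5 (hPI.fg y h6)
    rw [this, measure_empty]
  exact ⟨e1.trans (compIso hgm hfm hfg)⟩

end Q98.EL
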