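import Pool.Agent.Q98.EL.Dec
import Pool.Agent.Q98.EL.LP

/-! `ℓ_p` and `L_p[0,1]`, `1 < p < ∞`, fail the equivariant dual lifting property. -/

set_option autoImplicit false

open MeasureTheory Set Filter
open scoped ENNReal

namespace Q98.EL

section Seq

variable {p : ℝ≥0∞} [Fact (1 ≤ p)]

/-- `ℓ_p` -/
abbrev lq (p : ℝ≥0∞) : Type := lp (fun _ : ℕ => ℝ) p

lemma summable_q (hp : p ≠ ∞) (x : lq p) : Summable fun i => ‖x i‖ ^ p.toReal :=
  (lp.memℓp x).summable (lt_of_lt_of_le one_pos (one_le_toReal hp))

lemma norm_q (hp : p ≠ ∞) (x : lq p) : ‖x‖ ^ p.toReal = ∑' i, ‖x i‖ ^ p.toReal :=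
  lp.norm_rpow_eq_tsum (lt_of_lt_of_le one_pos (one_le_toReal hp)) x

lemma memℓp_of (hp : p ≠ ∞) {f : ℕ → ℝ} (h : Summable fun i => ‖f i‖ ^ p.toReal) : Memℓp f p := by
  rw [memℓp_gen_iff (lt_of_lt_of_le one_pos (one_le_toReal hp))]
  exact h

lemma ind_rpow {q : ℝ} (hq : 0 < q) (B : Set ℕ) (f : ℕ → ℝ) :
    (fun i => ‖B.indicator f i‖ ^ q) = B.indicator fun i => ‖f i‖ ^ q := by
  ext i
  by_cases hi : i ∈ B
  · simp [hi]
  · simp [hi, Real.zero_rpow hq.ne']

/-- truncation -/
noncomputable def Ts (hp : p ≠ ∞) (B : Set ℕ) : lq p →ₗ[ℝ] lq p where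
  toFun x := ⟨B.indicator x, memℓp_of hp (by
    rw [ind_rpow (lt_of_lt_of_le one_pos (one_le_toReal hp))]
    exact (summable_q hp x).indicator B)⟩
  map_add' x y := by
    ext i
    show B.indicator (⇑(x + y)) i = B.indicator (⇑x) i + B.indicator (⇑y) i
    rw [lp.coeFn_add, Set.indicator_add']
    rfl
  map_smul' c x := by
    ext i
    show B.indicator (⇑(c • x)) i = c • B.indicator (⇑x) i
    by_cases hi : i ∈ B <;> simp [hi]

lemma Ts_apply (hp : p ≠ ∞) (B : Set ℕ) (x : lq p) (i : ℕ) : Ts hp B x i = B.indicator x i := rfl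

lemma norm_Ts (hp : p ≠ ∞) (B : Set ℕ) (x : lq p) :
    ‖Ts hp B x‖ ^ p.toReal = ∑' i, B.indicator (fun i => ‖x i‖ ^ p.toReal) i := by
  rw [norm_q hp, ← ind_rpow (lt_of_lt_of_le one_pos (one_le_toReal hp))]
  rfl

lemma norm_eq_of (hp : p ≠ ∞) {a b : ℝ} (ha : 0 ≤ a) (hb : 0 ≤ b)
    (h : a ^ p.toReal = b ^ p.toReal) : a = b :=
  (Real.rpow_left_inj ha hb (lt_of_lt_of_le one_pos (one_le_toReal hp)).ne').1 h

theorem pdec_seq (hp : p ≠ ∞) : PDec p.toReal (Ts (p := p) hp) where
  univ x := by
    ext i
    rw [Ts_apply, Set.indicator_univ]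
  add A B hAB x := by
    rw [norm_Ts, norm_Ts, norm_Ts, Set.indicator_union_of_disjoint hAB]
    exact ((summable_q hp x).indicator A).tsum_add ((summable_q hp x).indicator B)
  perm σ := by
    have hm : ∀ (τ : Equiv.Perm ℕ) (x : lq p), Memℓp (fun i => x (τ i)) p := by
      intro τ x
      apply memℓp_of hp
      exact (τ.summable_iff (f := fun i => ‖x i‖ ^ p.toReal)).2 (summable_q hp x)
    let g : lq p ≃ₗᵢ[ℝ] lq p :=
      { toFun := fun x => ⟨fun i => x (σ.symm i), hm σ.symm x⟩
        invFun := fun x => ⟨fun i => x (σ i), hm σ x⟩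
        left_inv := fun x => by
          ext i
          show x (σ.symm (σ i)) = x i
          rw [Equiv.symm_apply_apply]
        right_inv := fun x => by
          ext i
          show x (σ (σ.symm i)) = x i
          rw [Equiv.apply_symm_apply]
        map_add' := fun x y => by
          ext i
          rfl
        map_smul' := fun c x => by
          ext i
          rfl
        norm_map' := fun x => by
          apply norm_eq_of hp (norm_nonneg _) (norm_nonneg _)
          rw [norm_q hp, norm_q hp]
          exact σ.symm.tsum_eq (fun i => ‖x i‖ ^ p.toReal) }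
    have hg : ∀ x i, g x i = x (σ.symm i) := fun x i => rfl
    refine ⟨g, ?_, ?_, ?_⟩
    · intro B x
      apply norm_eq_of hp (norm_nonneg _) (norm_nonneg _)
      have h3 := σ.symm.tsum_eq ((σ ⁻¹' B).indicator fun i => ‖x i‖ ^ p.toReal)
      rw [norm_Ts, norm_Ts, ← h3]
      refine tsum_congr fun i => ?_
      by_cases hi : i ∈ B
      · have h2 : σ.symm i ∈ σ ⁻¹' B := by rwa [Set.mem_preimage, Equiv.apply_symm_apply]
        rw [Set.indicator_of_mem hi, Set.indicator_of_mem h2, hg]
      · have h2 : σ.symm i ∉ σ ⁻¹' B := by rwa [Set.mem_preimage, Equiv.apply_symm_apply]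
        rw [Set.indicator_of_notMem hi, Set.indicator_of_notMem h2]
    · intro k hk x
      have hk' : σ.symm k = k := by rw [Equiv.symm_apply_eq, hk]
      ext i
      rw [Ts_apply, Ts_apply]
      by_cases hi : i ∈ ({k} : Set ℕ)
      · rw [Set.indicator_of_mem hi, Set.indicator_of_mem hi, Set.mem_singleton_iff.1 hi, hg, hk']
      · rw [Set.indicator_of_notMem hi, Set.indicator_of_notMem hi]
    · intro k hk x hx
      have hk' : σ.symm k = k := by rw [Equiv.symm_apply_eq, hk]
      have h0 : ∀ i, i ≠ k → x i = 0 := by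
        intro i hi
        rw [← hx, Ts_apply, Set.indicator_of_notMem (by simpa using hi)]
      ext i
      rw [hg]
      by_cases hi : i = k
      · rw [hi, hk']
      · rw [h0 i hi, h0]
        intro h
        apply hi
        rw [Equiv.symm_apply_eq, hk] at h
        exact h
  sign j := by
    let f : lq p → lq p := fun x => ⟨fun i => if i = j then - x i else x i, memℓp_of hp (by
      refine (summable_q hp x).congr fun i => ?_
      by_cases hi : i = j <;> simp [hi])⟩
    have hf : ∀ x i, f x i = if i = j then - x i else x i := fun x i => rfl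
    have hff : ∀ x, f (f x) = x := by
      intro x
      ext i
      rw [hf, hf]
      by_cases hi : i = j <;> simp [hi]
    let g : lq p ≃ₗᵢ[ℝ] lq p :=
      { toFun := f
        invFun := f
        left_inv := hff
        right_inv := hff
        map_add' := fun x y => by
          ext i
          rw [hf]
          show _ = f x i + f y i
          rw [hf, hf]
          show (if i = j then -(x i + y i) else x i + y i) = _
          by_cases hi : i = j
          · simp only [hi, if_true]; ring
          · simp only [hi, if_false]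
        map_smul' := fun c x => by
          ext i
          rw [hf]
          show _ = c * f x i
          rw [hf]
          show (if i = j then -(c * x i) else c * x i) = _
          by_cases hi : i = j
          · simp only [hi, if_true]; ring
          · simp only [hi, if_false]
        norm_map' := fun x => by
          apply norm_eq_of hp (norm_nonneg _) (norm_nonneg _)
          rw [norm_q hp, norm_q hp]
          refine tsum_congr fun i => ?_
          show ‖f x i‖ ^ _ = _
          rw [hf]
          by_cases hi : i = j <;> simp [hi] }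
    have hg : ∀ x i, g x i = if i = j then - x i else x i := fun x i => rfl
    refine ⟨g, ?_, ?_, ?_⟩
    · intro B x
      apply norm_eq_of hp (norm_nonneg _) (norm_nonneg _)
      rw [norm_Ts, norm_Ts]
      refine tsum_congr fun i => ?_
      by_cases hi : i ∈ B
      · rw [Set.indicator_of_mem hi, Set.indicator_of_mem hi, hg]
        by_cases hi : i = j <;> simp [hi]
      · rw [Set.indicator_of_notMem hi, Set.indicator_of_notMem hi]
    · intro k hk x
      ext i
      rw [Ts_apply, Ts_apply]
      by_cases hi : i ∈ ({k} : Set ℕ)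
      · rw [Set.indicator_of_mem hi, Set.indicator_of_mem hi, Set.mem_singleton_iff.1 hi, hg,
          if_neg hk]
      · rw [Set.indicator_of_notMem hi, Set.indicator_of_notMem hi]
    · intro x hx
      have h0 : ∀ i, i ≠ j → x i = 0 := by
        intro i hi
        rw [← hx, Ts_apply, Set.indicator_of_notMem (by simpa using hi)]
      ext i
      rw [hg]
      show _ = - x i
      by_cases hi : i = j
      · rw [if_pos hi]
      · rw [if_neg hi, h0 i hi, neg_zero]
  vec i := by
    refine ⟨lp.single p i (1 : ℝ), ?_, ?_⟩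
    · rw [lp.norm_single (pos_iff_ne_zero.2 p_ne_zero)]; simp
    · ext k
      rw [Ts_apply]
      by_cases hk : k ∈ ({i} : Set ℕ)
      · rw [Set.indicator_of_mem hk]
      · rw [Set.indicator_of_notMem hk, lp.single_apply]
        rw [Pi.single_eq_of_ne (by simpa using hk)]

theorem not_hasEDL_seq (hp1 : 1 < p) (hp : p ≠ ∞) : ¬ HasEDL (lq p) := by
  refine (pdec_seq hp).not_hasEDL ?_
  have := (ENNReal.toReal_lt_toReal ENNReal.one_ne_top hp).2 hp1
  simpa using this

end Seq

section Fun

variable {p : ℝ≥0∞} [Fact (1 ≤ p)]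

/-- the measure space `ℕ × ℝ` -/
noncomputable abbrev mm : Measure (ℕ × ℝ) := Measure.count.prod volume

/-- the cylinder over `B` -/
def cyl (B : Set ℕ) : Set (ℕ × ℝ) := B ×ˢ univ

lemma measurableSet_cyl (B : Set ℕ) : MeasurableSet (cyl B) :=
  (MeasurableSet.of_discrete).prod MeasurableSet.univ

/-- multiplication by an indicator function -/
noncomputable def Tf (p : ℝ≥0∞) [Fact (1 ≤ p)] (B : Set ℕ) : Lp ℝ p mm →ₗ[ℝ] Lp ℝ p mm where
  toFun u := ((Lp.memLp u).indicator (measurableSet_cyl B)).toLp
  map_add' u v := by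
    apply Lp.ext
    filter_upwards [((Lp.memLp (u + v)).indicator (measurableSet_cyl B)).coeFn_toLp,
      Lp.coeFn_add (((Lp.memLp u).indicator (measurableSet_cyl B)).toLp)
        (((Lp.memLp v).indicator (measurableSet_cyl B)).toLp),
      ((Lp.memLp u).indicator (measurableSet_cyl B)).coeFn_toLp,
      ((Lp.memLp v).indicator (measurableSet_cyl B)).coeFn_toLp, Lp.coeFn_add u v]
      with x e1 e2 e3 e4 e5
    rw [e1, e2, Pi.add_apply, e3, e4]
    by_cases hx : x ∈ cyl B
    · rw [Set.indicator_of_mem hx, Set.indicator_of_mem hx, Set.indicator_of_mem hx, e5,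
        Pi.add_apply]
    · rw [Set.indicator_of_notMem hx, Set.indicator_of_notMem hx, Set.indicator_of_notMem hx,
        add_zero]
  map_smul' c u := by
    apply Lp.ext
    filter_upwards [((Lp.memLp (c • u)).indicator (measurableSet_cyl B)).coeFn_toLp,
      Lp.coeFn_smul c (((Lp.memLp u).indicator (measurableSet_cyl B)).toLp),
      ((Lp.memLp u).indicator (measurableSet_cyl B)).coeFn_toLp, Lp.coeFn_smul c u]
      with x e1 e2 e3 e5
    rw [e1, RingHom.id_apply, e2, Pi.smul_apply, e3]
    by_cases hx : x ∈ cyl B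
    · rw [Set.indicator_of_mem hx, Set.indicator_of_mem hx, e5, Pi.smul_apply]
    · rw [Set.indicator_of_notMem hx, Set.indicator_of_notMem hx, smul_zero]

lemma coe_Tf (B : Set ℕ) (u : Lp ℝ p mm) : Tf p B u =ᵐ[mm] (cyl B).indicator u :=
  ((Lp.memLp u).indicator (measurableSet_cyl B)).coeFn_toLp

lemma norm_Tf (hp : p ≠ ∞) (B : Set ℕ) (u : Lp ℝ p mm) :
    ‖Tf p B u‖ ^ p.toReal = (∫⁻ x in cyl B, ‖u x‖ₑ ^ p.toReal ∂mm).toReal := by
  have hq0 : 0 < p.toReal := lt_of_lt_of_le one_pos (one_le_toReal hp)
  rw [norm_rpow hp, ← lintegral_indicator (measurableSet_cyl B)]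
  congr 1
  refine lintegral_congr_ae ?_
  filter_upwards [coe_Tf B u] with x e1
  rw [e1]
  by_cases hx : x ∈ cyl B
  · rw [Set.indicator_of_mem hx, Set.indicator_of_mem hx]
  · rw [Set.indicator_of_notMem hx, Set.indicator_of_notMem hx, enorm_zero,
      ENNReal.zero_rpow_of_pos hq0]

lemma mp_perm (σ : Equiv.Perm ℕ) : MeasurePreserving (fun z : ℕ × ℝ => (σ z.1, z.2)) mm mm := by
  have h1 : MeasurePreserving σ (Measure.count : Measure ℕ) Measure.count := by
    refine ⟨measurable_of_countable _, ?_⟩
    ext s hs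
    rw [Measure.map_apply (measurable_of_countable _) hs, Measure.count_apply hs,
      Measure.count_apply ((measurable_of_countable _) hs)]
    rw [Set.encard_preimage_of_bijective σ.bijective]
  exact h1.prod (MeasurePreserving.id volume)

theorem pdec_fun (hp : p ≠ ∞) : PDec p.toReal (Tf p) where
  univ u := by
    apply Lp.ext
    filter_upwards [coe_Tf univ u] with x e1
    rw [e1, Set.indicator_of_mem]
    exact ⟨trivial, trivial⟩
  add A B hAB u := by
    rw [norm_Tf hp, norm_Tf hp, norm_Tf hp, ← ENNReal.toReal_add]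
    · congr 1
      have h1 : cyl (A ∪ B) = cyl A ∪ cyl B := Set.union_prod
      rw [h1, lintegral_union (measurableSet_cyl B)]
      exact Set.Disjoint.set_prod_left hAB _ _
    · exact ne_top_of_le_ne_top (lintegral_ne_top hp u) (setLIntegral_le_lintegral _ _)
    · exact ne_top_of_le_ne_top (lintegral_ne_top hp u) (setLIntegral_le_lintegral _ _)
  perm σ := by
    have h1 := mp_perm σ.symm
    have h2 := mp_perm σ
    have h3 : ∀ᵐ x ∂mm, (fun z : ℕ × ℝ => (σ z.1, z.2)) ((fun z : ℕ × ℝ => (σ.symm z.1, z.2)) x)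
        = x := by
      refine Filter.Eventually.of_forall fun x => ?_
      simp
    set g := compIso (p := p) h1 h2 h3 with hg
    have hgc : ∀ u, g u =ᵐ[mm] u ∘ fun z : ℕ × ℝ => (σ.symm z.1, z.2) := coeFn_compIso h1 h2 h3
    refine ⟨g, ?_, ?_, ?_⟩
    · intro B u
      apply norm_eq_of hp (norm_nonneg _) (norm_nonneg _)
      rw [norm_Tf hp, norm_Tf hp]
      congr 1
      have e1 : ∫⁻ x in cyl B, ‖g u x‖ₑ ^ p.toReal ∂mm
          = ∫⁻ x in (fun z : ℕ × ℝ => (σ.symm z.1, z.2)) ⁻¹' (cyl (σ ⁻¹' B)),
            (fun y => ‖u y‖ₑ ^ p.toReal) ((fun z : ℕ × ℝ => (σ.symm z.1, z.2)) x) ∂mm := by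
        have e2 : (fun z : ℕ × ℝ => (σ.symm z.1, z.2)) ⁻¹' (cyl (σ ⁻¹' B)) = cyl B := by
          ext z
          simp [cyl]
        rw [e2]
        refine lintegral_congr_ae (ae_restrict_of_ae ?_)
        filter_upwards [hgc u] with x hx
        rw [hx]; rfl
      rw [e1]
      exact h1.setLIntegral_comp_preimage (measurableSet_cyl _)
        ((Lp.stronglyMeasurable u).measurable.enorm.pow_const _)
    · intro k hk u
      have hk' : σ.symm k = k := by rw [Equiv.symm_apply_eq, hk]
      apply Lp.ext
      filter_upwards [coe_Tf {k} (g u), coe_Tf {k} u, hgc u] with x e1 e2 e3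
      rw [e1, e2]
      by_cases hx : x ∈ cyl {k}
      · rw [Set.indicator_of_mem hx, Set.indicator_of_mem hx, e3]
        have : x.1 = k := hx.1
        show u (σ.symm x.1, x.2) = u x
        rw [this, hk', ← this]
      · rw [Set.indicator_of_notMem hx, Set.indicator_of_notMem hx]
    · intro k hk u hu
      have hk' : σ.symm k = k := by rw [Equiv.symm_apply_eq, hk]
      have h4 : ∀ᵐ x ∂mm, x.1 ≠ k → u x = 0 := by
        filter_upwards [coe_Tf {k} u] with x e1 hx
        rw [hu] at e1
        rw [e1, Set.indicator_of_notMem]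
        intro h
        exact hx h.1
      apply Lp.ext
      filter_upwards [hgc u, h4, h1.quasiMeasurePreserving.ae h4] with x e1 e2 e3
      rw [e1]
      show u (σ.symm x.1, x.2) = u x
      by_cases hx : x.1 = k
      · rw [hx, hk', ← hx]
      · rw [e2 hx]
        apply e3
        intro h
        apply hx
        have h' : σ.symm x.1 = k := h
        rw [Equiv.symm_apply_eq, hk] at h'
        exact h'
  sign j := by
    have hlin : ∀ u : Lp ℝ p mm, (u - (2:ℝ) • Tf p {j} u : Lp ℝ p mm)
        =ᵐ[mm] fun x => if x.1 = j then - u x else u x := by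
      intro u
      filter_upwards [Lp.coeFn_sub u ((2:ℝ) • Tf p {j} u), Lp.coeFn_smul (2:ℝ) (Tf p {j} u),
        coe_Tf {j} u] with x e1 e2 e3
      rw [e1, Pi.sub_apply, e2, Pi.smul_apply, e3, smul_eq_mul]
      by_cases hx : x.1 = j
      · rw [if_pos hx, Set.indicator_of_mem (show x ∈ cyl {j} from ⟨hx, trivial⟩)]; ring
      · rw [if_neg hx, Set.indicator_of_notMem (show x ∉ cyl {j} from fun h => hx h.1)]; ring
    let f : Lp ℝ p mm →ₗ[ℝ] Lp ℝ p mm := LinearMap.id - (2:ℝ) • Tf p {j}
    have hf : ∀ u, f u =ᵐ[mm] fun x => if x.1 = j then - u x else u x := hlin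
    have hff : ∀ u, f (f u) = u := by
      intro u
      apply Lp.ext
      filter_upwards [hf (f u), hf u] with x e1 e2
      rw [e1, e2]
      by_cases hx : x.1 = j <;> simp [hx]
    have hfn : ∀ u, ‖f u‖ = ‖u‖ := by
      intro u
      apply norm_eq_of hp (norm_nonneg _) (norm_nonneg _)
      rw [norm_rpow hp, norm_rpow hp]
      congr 1
      refine lintegral_congr_ae ?_
      filter_upwards [hf u] with x e1
      rw [e1]
      by_cases hx : x.1 = j <;> simp [hx]
    refine ⟨LinearIsometryEquiv.ofSurjective ⟨f, hfn⟩ (fun u => ⟨f u, hff u⟩), ?_, ?_, ?_⟩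
    · intro B u
      show ‖Tf p B (f u)‖ = _
      apply norm_eq_of hp (norm_nonneg _) (norm_nonneg _)
      rw [norm_Tf hp, norm_Tf hp]
      congr 1
      refine lintegral_congr_ae (ae_restrict_of_ae ?_)
      filter_upwards [hf u] with x e1
      rw [e1]
      by_cases hx : x.1 = j <;> simp [hx]
    · intro k hk u
      show Tf p {k} (f u) = _
      apply Lp.ext
      filter_upwards [coe_Tf {k} (f u), coe_Tf {k} u, hf u] with x e1 e2 e3
      rw [e1, e2]
      by_cases hx : x ∈ cyl {k}
      · rw [Set.indicator_of_mem hx, Set.indicator_of_mem hx, e3]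
        have : x.1 = k := hx.1
        rw [if_neg (by rw [this]; exact hk)]
      · rw [Set.indicator_of_notMem hx, Set.indicator_of_notMem hx]
    · intro u hu
      show f u = -u
      apply Lp.ext
      filter_upwards [hf u, Lp.coeFn_neg u, coe_Tf {j} u] with x e1 e2 e3
      rw [e1, e2, Pi.neg_apply]
      by_cases hx : x.1 = j
      · rw [if_pos hx]
      · rw [if_neg hx]
        rw [hu] at e3
        rw [e3, Set.indicator_of_notMem (show x ∉ cyl {j} from fun h => hx h.1), neg_zero]
  vec i := by
    have hs : MeasurableSet (({i} : Set ℕ) ×ˢ (Ico (0:ℝ) 1)) :=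
      (MeasurableSet.of_discrete).prod measurableSet_Ico
    have hm : mm (({i} : Set ℕ) ×ˢ (Ico (0:ℝ) 1)) = 1 := by
      rw [Measure.prod_prod, Measure.count_singleton, Real.volume_Ico]; simp
    refine ⟨indicatorConstLp p hs (by rw [hm]; exact ENNReal.one_ne_top) (1:ℝ), ?_, ?_⟩
    · rw [norm_indicatorConstLp p_ne_zero hp, measureReal_def, hm]; simp
    · apply Lp.ext
      filter_upwards [coe_Tf {i} (indicatorConstLp p hs (by rw [hm]; exact ENNReal.one_ne_top)
        (1:ℝ)), indicatorConstLp_coeFn (p := p) (hs := hs)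
        (hμs := by rw [hm]; exact ENNReal.one_ne_top) (c := (1:ℝ))] with x e1 e2
      rw [e1]
      by_cases hx : x ∈ cyl {i}
      · rw [Set.indicator_of_mem hx]
      · rw [Set.indicator_of_notMem hx, e2, Set.indicator_of_notMem]
        intro h
        exact hx ⟨h.1, trivial⟩

theorem not_hasEDL_fun (hp1 : 1 < p) (hp : p ≠ ∞) :
    ¬ HasEDL (Lp ℝ p (volume.restrict (Icc (0:ℝ) 1))) := by
  intro h
  have hn : NullSingletonClass mm := by infer_instance
  have h0 : mm ≠ 0 := by
    intro h0
    have hm : mm (({0} : Set ℕ) ×ˢ (Ico (0:ℝ) 1)) = 1 := by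
      rw [Measure.prod_prod, Measure.count_singleton, Real.volume_Ico]; simp
    rw [h0] at hm
    simp at hm
  obtain ⟨e⟩ := exists_iso mm h0 hp
  have h1 : HasEDL (Lp ℝ p mm) := h.congr e.symm
  refine (pdec_fun hp).not_hasEDL ?_ h1
  have := (ENNReal.toReal_lt_toReal ENNReal.one_ne_top hp).2 hp1
  simpa using this

end Fun

end Q98.EL
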