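import Pool.Agent.Q98.EL.Base
import Pool.Agent.Q98.EL.LP

/-! `L_1[0,1]` fails the equivariant dual lifting property. -/

set_option autoImplicit false

open MeasureTheory Set Filter
open scoped ENNReal
open Pool.Agent.H266R3.LF

namespace Q98.EL

/-- the plane -/
abbrev Pl : Type := ℝ × ℝ

/-- `L_1` of the plane -/
abbrev E1 : Type := Lp ℝ 1 (volume : Measure Pl)

/-- the measure on pairs of points -/
noncomputable abbrev vv : Measure (Pl × Pl) := (volume : Measure Pl).prod volume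

/-- bounded measurable kernels -/
structure Ker (K : Pl → ℝ) : Prop where
  meas : Measurable K
  le : ∀ x, |K x| ≤ 1

/-- the form -/
noncomputable def b (K : Pl → ℝ) (u v : Pl → ℝ) : ℝ :=
  ∫ z : Pl × Pl, K (z.1 - z.2) * (u z.1 * v z.2) ∂vv

variable {K : Pl → ℝ}

lemma b_integrable (hK : Ker K) {u v : Pl → ℝ} (hu : Integrable u) (hv : Integrable v) :
    Integrable (fun z : Pl × Pl => K (z.1 - z.2) * (u z.1 * v z.2)) vv :=
  (hu.mul_prod hv).bdd_mul (c := 1)
    (hK.meas.comp (measurable_fst.sub measurable_snd)).aestronglyMeasurable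
    (Filter.Eventually.of_forall fun z => by rw [Real.norm_eq_abs]; exact hK.le _)

lemma b_le (hK : Ker K) {u v : Pl → ℝ} (hu : Integrable u) (hv : Integrable v) :
    |b K u v| ≤ (∫ x, |u x|) * ∫ x, |v x| := by
  rw [b, ← Real.norm_eq_abs]
  refine (norm_integral_le_integral_norm _).trans ?_
  rw [← integral_prod_mul]
  refine integral_mono (b_integrable hK hu hv).norm (hu.abs.mul_prod hv.abs) fun z => ?_
  show ‖K (z.1 - z.2) * (u z.1 * v z.2)‖ ≤ |u z.1| * |v z.2|
  rw [Real.norm_eq_abs, abs_mul, abs_mul]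
  calc |K (z.1 - z.2)| * (|u z.1| * |v z.2|) ≤ 1 * (|u z.1| * |v z.2|) :=
        mul_le_mul_of_nonneg_right (hK.le _) (by positivity)
    _ = _ := one_mul _

lemma b_sub_left (hK : Ker K) {u u' v : Pl → ℝ} (hu : Integrable u) (hu' : Integrable u')
    (hv : Integrable v) : b K (fun x => u x - u' x) v = b K u v - b K u' v := by
  rw [b, b, b, ← integral_sub (b_integrable hK hu hv) (b_integrable hK hu' hv)]
  congr 1
  ext z
  ring

lemma b_sub_right (hK : Ker K) {u v v' : Pl → ℝ} (hu : Integrable u) (hv : Integrable v)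
    (hv' : Integrable v') : b K u (fun x => v x - v' x) = b K u v - b K u v' := by
  rw [b, b, b, ← integral_sub (b_integrable hK hu hv) (b_integrable hK hu hv')]
  congr 1
  ext z
  ring

/-- the quadratic functional -/
noncomputable def G (K : Pl → ℝ) (u : E1) : ℝ := b K u fun x => |u x|

lemma norm_int (u : E1) : ‖u‖ = ∫ x, |u x| := L1.norm_eq_integral_norm u

lemma int1 (u : E1) : Integrable u volume := L1.integrable_coeFn u

lemma norm_sub_int (u v : E1) : ∫ x, |u x - v x| = ‖u - v‖ := by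
  rw [norm_int]
  refine integral_congr_ae ?_
  filter_upwards [Lp.coeFn_sub u v] with x hx
  rw [hx, Pi.sub_apply]

lemma G_le (hK : Ker K) (u : E1) : |G K u| ≤ ‖u‖ * ‖u‖ := by
  have := b_le hK (int1 u) (int1 u).abs
  simp only [abs_abs] at this
  rwa [← norm_int] at this

lemma G_sub_le (hK : Ker K) (u v : E1) : |G K u - G K v| ≤ ‖u - v‖ * (‖u‖ + ‖v‖) := by
  have e : G K u - G K v
      = b K (fun x => u x - v x) (fun x => |u x|) + b K v (fun x => |u x| - |v x|) := by
    rw [b_sub_left hK (int1 u) (int1 v) (int1 u).abs,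
      b_sub_right hK (int1 v) (int1 u).abs (int1 v).abs]
    unfold G
    ring
  rw [e]
  refine (abs_add_le _ _).trans ?_
  have h1 := b_le hK ((int1 u).sub (int1 v)) (int1 u).abs
  have h2 := b_le hK (int1 v) ((int1 u).abs.sub (int1 v).abs)
  have h3 : ∫ x, |(|u x| - |v x|)| ≤ ‖u - v‖ := by
    rw [← norm_sub_int]
    refine integral_mono ((int1 u).abs.sub (int1 v).abs).abs ((int1 u).sub (int1 v)).abs
      fun x => ?_
    exact abs_abs_sub_abs_le _ _
  have h4 : ∫ x, |(|u x|)| = ‖u‖ := by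
    rw [norm_int]; simp only [abs_abs]
  have h5 : ∫ x, |v x| = ‖v‖ := (norm_int v).symm
  have h1' : |b K (fun x => u x - v x) (fun x => |u x|)| ≤ ‖u - v‖ * ‖u‖ := by
    rw [← norm_sub_int, ← h4]
    exact h1
  have h2' : |b K v (fun x => |u x| - |v x|)| ≤ ‖v‖ * ‖u - v‖ := by
    refine h2.trans ?_
    rw [h5]
    exact mul_le_mul_of_nonneg_left h3 (norm_nonneg _)
  linarith

lemma G_lip (hK : Ker K) (u v : E1) : |G K u / ‖u‖ - G K v / ‖v‖| ≤ 3 * dist u v := by
  wlog h : ‖v‖ ≤ ‖u‖ generalizing u v with H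
  · have := H v u (not_le.1 h).le
    rwa [abs_sub_comm, dist_comm] at this
  rw [dist_eq_norm]
  rcases eq_or_ne u 0 with rfl | hu
  · have : v = 0 := by
      rw [norm_zero] at h
      exact norm_le_zero_iff.1 h
    rw [this]; simp
  have hup : 0 < ‖u‖ := norm_pos_iff.2 hu
  rcases eq_or_ne v 0 with rfl | hv
  · rw [norm_zero, div_zero, sub_zero, sub_zero, abs_div, abs_of_pos hup, div_le_iff₀ hup]
    have := G_le hK u
    nlinarith
  have hvp : 0 < ‖v‖ := norm_pos_iff.2 hv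
  have e : G K u / ‖u‖ - G K v / ‖v‖
      = (G K u - G K v) / ‖u‖ + G K v * (‖v‖ - ‖u‖) / (‖u‖ * ‖v‖) := by
    field_simp
    ring
  rw [e]
  refine (abs_add_le _ _).trans ?_
  have h1 : |(G K u - G K v) / ‖u‖| ≤ 2 * ‖u - v‖ := by
    rw [abs_div, abs_of_pos hup, div_le_iff₀ hup]
    refine (G_sub_le hK u v).trans ?_
    have := mul_le_mul_of_nonneg_left (show ‖u‖ + ‖v‖ ≤ 2 * ‖u‖ by linarith)
      (norm_nonneg (u - v))
    linarith
  have h2 : |G K v * (‖v‖ - ‖u‖) / (‖u‖ * ‖v‖)| ≤ ‖u - v‖ := by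
    rw [abs_div, abs_mul, abs_of_pos (mul_pos hup hvp), div_le_iff₀ (mul_pos hup hvp)]
    have h3 : |‖v‖ - ‖u‖| ≤ ‖u - v‖ := by
      rw [norm_sub_rev]; exact abs_norm_sub_norm_le v u
    calc |G K v| * |‖v‖ - ‖u‖| ≤ (‖v‖ * ‖v‖) * ‖u - v‖ :=
          mul_le_mul (G_le hK v) h3 (abs_nonneg _) (by positivity)
      _ ≤ (‖u‖ * ‖v‖) * ‖u - v‖ := by gcongr
      _ = _ := mul_comm _ _
  linarith

/-- the Lipschitz functions -/
noncomputable def LL (K : Pl → ℝ) (hK : Ker K) : Lip0 E1 (0 : E1) :=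
  Lip0.mk (fun u => G K u / ‖u‖) (by simp) 3 (by norm_num) (G_lip hK)

lemma LL_fn (hK : Ker K) (u : E1) : (LL K hK).fn u = G K u / ‖u‖ := rfl

lemma LL_norm (hK : Ker K) : ‖LL K hK‖ ≤ 3 := Lip0.norm_le' _ (by norm_num) (G_lip hK)

/-- change of variables -/
lemma G_comp {f : Pl → Pl} (hf : MeasurePreserving f volume volume)
    (he : MeasurableEmbedding (Prod.map f f))
    {K' : Pl → ℝ} (hKK : ∀ x y, K (f x - f y) = K' (x - y)) (u v : E1)
    (hv : (v : Pl → ℝ) =ᵐ[volume] (u : Pl → ℝ) ∘ f) : G K u = G K' v := by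
  have h1 : MeasurePreserving (Prod.map f f) vv vv := hf.prod hf
  have h2 : G K u = ∫ z : Pl × Pl, K ((Prod.map f f z).1 - (Prod.map f f z).2)
      * (u (Prod.map f f z).1 * |u (Prod.map f f z).2|) ∂vv := by
    exact (h1.integral_comp he (fun z : Pl × Pl => K (z.1 - z.2) * (u z.1 * |u z.2|))).symm
  rw [h2]
  unfold G b
  refine integral_congr_ae ?_
  have h3 : ∀ᵐ z ∂vv, v z.1 = u (f z.1) :=
    Measure.quasiMeasurePreserving_fst.ae hv
  have h4 : ∀ᵐ z ∂vv, v z.2 = u (f z.2) :=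
    Measure.quasiMeasurePreserving_snd.ae hv
  filter_upwards [h3, h4] with z e3 e4
  rw [e3, e4, Prod.map_fst, Prod.map_snd, hKK]

lemma G_null {K' : Pl → ℝ} (h : ∀ᵐ x ∂(volume : Measure Pl), K x = K' x) (u : E1) :
    G K u = G K' u := by
  unfold G b
  refine integral_congr_ae ?_
  have h1 := (quasiMeasurePreserving_sub_of_right_invariant (volume : Measure Pl)
    (volume : Measure Pl)).ae h
  filter_upwards [h1] with z hz
  rw [hz]

lemma G_add {K₁ K₂ K₃ : Pl → ℝ} (h1 : Ker K₁) (h2 : Ker K₂)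
    (h : ∀ x, K₃ x = K₁ x + K₂ x) (u : E1) : G K₃ u = G K₁ u + G K₂ u := by
  unfold G b
  rw [← integral_add (b_integrable h1 (int1 u) (int1 u).abs)
    (b_integrable h2 (int1 u) (int1 u).abs)]
  congr 1
  ext z
  rw [h]; ring

lemma G_one (u : E1) : G (fun _ => 1) u = (∫ x, u x) * ‖u‖ := by
  unfold G b
  rw [norm_int, ← integral_prod_mul]
  simp only [one_mul]

end Q98.EL
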