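import Pool.Agent.Q98.EL.Plane

/-! `L_1[0,1]` fails the equivariant dual lifting property: the shears of the plane. -/

set_option autoImplicit false

open MeasureTheory Set Filter
open scoped ENNReal
open Pool.Agent.H266R3.LF

namespace Q98.EL

/-- the double sector of the directions with slope in `[n, n + 1)` -/
def Sc (n : ℤ) : Set Pl :=
  {d | (0 < d.1 ∧ n * d.1 ≤ d.2 ∧ d.2 < (n + 1) * d.1) ∨
    (d.1 < 0 ∧ (n + 1) * d.1 < d.2 ∧ d.2 ≤ n * d.1)}

/-- the double sector of the directions with slope in `[0, N)` -/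
def Us (N : ℕ) : Set Pl :=
  {d | (0 < d.1 ∧ 0 ≤ d.2 ∧ d.2 < N * d.1) ∨ (d.1 < 0 ∧ N * d.1 < d.2 ∧ d.2 ≤ 0)}

lemma measurableSet_Sc (n : ℤ) : MeasurableSet (Sc n) := by
  have e : Sc n = ({d : Pl | 0 < d.1} ∩ ({d | n * d.1 ≤ d.2} ∩ {d | d.2 < (n + 1) * d.1})) ∪
      ({d : Pl | d.1 < 0} ∩ ({d | (n + 1) * d.1 < d.2} ∩ {d | d.2 ≤ n * d.1})) := rfl
  rw [e]
  refine MeasurableSet.union ?_ ?_
  · exact (measurableSet_lt measurable_const measurable_fst).inter
      ((measurableSet_le (measurable_fst.const_mul _) measurable_snd).inter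
        (measurableSet_lt measurable_snd (measurable_fst.const_mul _)))
  · exact (measurableSet_lt measurable_fst measurable_const).inter
      ((measurableSet_lt (measurable_fst.const_mul _) measurable_snd).inter
        (measurableSet_le measurable_snd (measurable_fst.const_mul _)))

lemma measurableSet_Us (N : ℕ) : MeasurableSet (Us N) := by
  have e : Us N = ({d : Pl | 0 < d.1} ∩ ({d | 0 ≤ d.2} ∩ {d | d.2 < N * d.1})) ∪
      ({d : Pl | d.1 < 0} ∩ ({d | N * d.1 < d.2} ∩ {d | d.2 ≤ 0})) := rfl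
  rw [e]
  refine MeasurableSet.union ?_ ?_
  · exact (measurableSet_lt measurable_const measurable_fst).inter
      ((measurableSet_le measurable_const measurable_snd).inter
        (measurableSet_lt measurable_snd (measurable_fst.const_mul _)))
  · exact (measurableSet_lt measurable_fst measurable_const).inter
      ((measurableSet_lt (measurable_fst.const_mul _) measurable_snd).inter
        (measurableSet_le measurable_snd measurable_const))

/-- indicator kernels -/
noncomputable def ki (S : Set Pl) : Pl → ℝ := S.indicator fun _ => 1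

lemma ker_ki {S : Set Pl} (hS : MeasurableSet S) : Ker (ki S) where
  meas := measurable_const.indicator hS
  le x := by
    unfold ki
    by_cases hx : x ∈ S
    · rw [Set.indicator_of_mem hx]; simp
    · rw [Set.indicator_of_notMem hx]; simp

lemma ki_iff {S S' : Set Pl} {x y : Pl} (h : x ∈ S ↔ y ∈ S') : ki S x = ki S' y := by
  unfold ki
  by_cases hx : x ∈ S
  · rw [Set.indicator_of_mem hx, Set.indicator_of_mem (h.1 hx)]
  · rw [Set.indicator_of_notMem hx, Set.indicator_of_notMem fun hy => hx (h.2 hy)]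

/-- the shear -/
noncomputable def sh : Pl ≃ᵐ Pl := MeasurableEquiv.shearAddRight ℝ

lemma sh_apply (x : Pl) : sh x = (x.1, x.1 + x.2) := rfl

lemma mp_sh : MeasurePreserving sh (volume : Measure Pl) volume :=
  measurePreserving_prod_add (volume : Measure ℝ) (volume : Measure ℝ)

/-- the translation -/
noncomputable def tr : Pl ≃ᵐ Pl := MeasurableEquiv.addRight ((0, -1) : Pl)

lemma tr_apply (x : Pl) : tr x = x + (0, -1) := rfl

lemma mp_tr : MeasurePreserving tr (volume : Measure Pl) volume :=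
  measurePreserving_add_right volume ((0, -1) : Pl)

/-- the swap -/
noncomputable def sw : Pl ≃ᵐ Pl := MeasurableEquiv.prodComm

lemma sw_apply (x : Pl) : sw x = (x.2, x.1) := rfl

lemma mp_sw : MeasurePreserving sw (volume : Measure Pl) volume :=
  Measure.measurePreserving_swap (μ := (volume : Measure ℝ)) (ν := (volume : Measure ℝ))

/-- composition with a measure preserving equivalence -/
noncomputable def ce (e : Pl ≃ᵐ Pl) (he : MeasurePreserving e volume volume) : E1 ≃ₗᵢ[ℝ] E1 :=
  compIso he (he.symm e) (Filter.Eventually.of_forall e.symm_apply_apply)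

lemma coe_ce (e : Pl ≃ᵐ Pl) (he : MeasurePreserving e volume volume) (u : E1) :
    (ce e he u : Pl → ℝ) =ᵐ[volume] (u : Pl → ℝ) ∘ e :=
  coeFn_compIso he (he.symm e) (Filter.Eventually.of_forall e.symm_apply_apply) u

lemma ce_ind (e : Pl ≃ᵐ Pl) (he : MeasurePreserving e volume volume) {s t : Set Pl}
    (hs : MeasurableSet s) (hsf : volume s ≠ ∞) (ht : MeasurableSet t) (htf : volume t ≠ ∞)
    (h : ∀ x, e x ∈ s ↔ x ∈ t) :
    ce e he (indicatorConstLp 1 hs hsf (1:ℝ)) = indicatorConstLp 1 ht htf (1:ℝ) := by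
  apply Lp.ext
  have h1 := he.quasiMeasurePreserving.ae (indicatorConstLp_coeFn (p := (1 : ℝ≥0∞)) (hs := hs)
    (hμs := hsf) (c := (1:ℝ)))
  filter_upwards [coe_ce e he (indicatorConstLp 1 hs hsf (1:ℝ)), h1,
    indicatorConstLp_coeFn (p := (1 : ℝ≥0∞)) (hs := ht) (hμs := htf) (c := (1:ℝ))] with x e1 e2 e3
  rw [e1, Function.comp_apply, e2, e3]
  by_cases hx : x ∈ t
  · rw [Set.indicator_of_mem hx, Set.indicator_of_mem ((h x).2 hx)]
  · rw [Set.indicator_of_notMem hx, Set.indicator_of_notMem fun hy => hx ((h x).1 hy)]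

/-- the integral as a functional -/
noncomputable def intf : StrongDual ℝ E1 :=
  LinearMap.mkContinuous
    { toFun := fun u => ∫ x, u x
      map_add' := fun u v => by
        rw [← integral_add (int1 u) (int1 v)]
        exact integral_congr_ae (Lp.coeFn_add u v)
      map_smul' := fun c u => by
        rw [RingHom.id_apply, smul_eq_mul, ← integral_const_mul]
        exact integral_congr_ae (Lp.coeFn_smul c u) } 1 (fun u => by
      rw [one_mul, norm_int]
      exact norm_integral_le_integral_norm _)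

lemma intf_apply (u : E1) : intf u = ∫ x, u x := rfl

/-- the unit square and the pieces -/
def Q0 : Set Pl := Ico 0 1 ×ˢ Ico 0 1
def PA : Set Pl := {z | z.1 ∈ Ico (0:ℝ) 1 ∧ 0 ≤ z.2 ∧ z.1 + z.2 < 1}
def PB : Set Pl := {z | z.1 ∈ Ico (0:ℝ) 1 ∧ z.2 < 0 ∧ 0 ≤ z.1 + z.2}
def PC : Set Pl := {z | z.1 ∈ Ico (0:ℝ) 1 ∧ z.2 < 1 ∧ 1 ≤ z.1 + z.2}
/-- the sheared square -/
def QS : Set Pl := {z | z.1 ∈ Ico (0:ℝ) 1 ∧ 0 ≤ z.1 + z.2 ∧ z.1 + z.2 < 1}

lemma mQ0 : MeasurableSet Q0 := measurableSet_Ico.prod measurableSet_Ico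

lemma mPA : MeasurableSet PA := by
  have e : PA = {z : Pl | z.1 ∈ Ico (0:ℝ) 1} ∩ ({z | 0 ≤ z.2} ∩ {z | z.1 + z.2 < 1}) := rfl
  rw [e]
  exact (measurable_fst measurableSet_Ico).inter
    ((measurableSet_le measurable_const measurable_snd).inter
      (measurableSet_lt (measurable_fst.add measurable_snd) measurable_const))

lemma mPB : MeasurableSet PB := by
  have e : PB = {z : Pl | z.1 ∈ Ico (0:ℝ) 1} ∩ ({z | z.2 < 0} ∩ {z | 0 ≤ z.1 + z.2}) := rfl
  rw [e]
  exact (measurable_fst measurableSet_Ico).inter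
    ((measurableSet_lt measurable_snd measurable_const).inter
      (measurableSet_le measurable_const (measurable_fst.add measurable_snd)))

lemma mPC : MeasurableSet PC := by
  have e : PC = {z : Pl | z.1 ∈ Ico (0:ℝ) 1} ∩ ({z | z.2 < 1} ∩ {z | 1 ≤ z.1 + z.2}) := rfl
  rw [e]
  exact (measurable_fst measurableSet_Ico).inter
    ((measurableSet_lt measurable_snd measurable_const).inter
      (measurableSet_le measurable_const (measurable_fst.add measurable_snd)))

lemma mQS : MeasurableSet QS := by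
  have e : QS = {z : Pl | z.1 ∈ Ico (0:ℝ) 1} ∩ ({z | 0 ≤ z.1 + z.2} ∩ {z | z.1 + z.2 < 1}) := rfl
  rw [e]
  exact (measurable_fst measurableSet_Ico).inter
    ((measurableSet_le measurable_const (measurable_fst.add measurable_snd)).inter
      (measurableSet_lt (measurable_fst.add measurable_snd) measurable_const))

lemma fin_of {s : Set Pl} (h : s ⊆ Icc (-1) 1 ×ˢ Icc (-1) 1) : volume s ≠ ∞ := by
  refine ne_top_of_le_ne_top ?_ (measure_mono h)
  rw [Measure.volume_eq_prod, Measure.prod_prod, Real.volume_Icc]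
  exact ENNReal.mul_ne_top ENNReal.ofReal_ne_top ENNReal.ofReal_ne_top

lemma fQ0 : volume Q0 ≠ ∞ := fin_of fun z hz => by
  obtain ⟨⟨h1, h2⟩, h3, h4⟩ := hz
  exact ⟨⟨by linarith, by linarith⟩, by linarith, by linarith⟩

lemma fPA : volume PA ≠ ∞ := fin_of fun z hz => by
  obtain ⟨⟨h1, h2⟩, h3, h4⟩ := hz
  exact ⟨⟨by linarith, by linarith⟩, by linarith, by linarith⟩

lemma fPB : volume PB ≠ ∞ := fin_of fun z hz => by
  obtain ⟨⟨h1, h2⟩, h3, h4⟩ := hz
  exact ⟨⟨by linarith, by linarith⟩, by linarith, by linarith⟩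

lemma fPC : volume PC ≠ ∞ := fin_of fun z hz => by
  obtain ⟨⟨h1, h2⟩, h3, h4⟩ := hz
  exact ⟨⟨by linarith, by linarith⟩, by linarith, by linarith⟩

lemma fQS : volume QS ≠ ∞ := fin_of fun z hz => by
  obtain ⟨⟨h1, h2⟩, h3, h4⟩ := hz
  exact ⟨⟨by linarith, by linarith⟩, by linarith, by linarith⟩

/-- the vectors -/
noncomputable def iQ : E1 := indicatorConstLp 1 mQ0 fQ0 (1:ℝ)
noncomputable def iA : E1 := indicatorConstLp 1 mPA fPA (1:ℝ)
noncomputable def iB : E1 := indicatorConstLp 1 mPB fPB (1:ℝ)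
noncomputable def iC : E1 := indicatorConstLp 1 mPC fPC (1:ℝ)
noncomputable def iS : E1 := indicatorConstLp 1 mQS fQS (1:ℝ)

lemma ind_add {s t r : Set Pl} (hs : MeasurableSet s) (hsf : volume s ≠ ∞)
    (ht : MeasurableSet t) (htf : volume t ≠ ∞) (hr : MeasurableSet r) (hrf : volume r ≠ ∞)
    (h : ∀ x, x ∈ r ↔ x ∈ s ∨ x ∈ t) (hd : ∀ x, x ∈ s → x ∉ t) :
    (indicatorConstLp 1 hr hrf (1:ℝ) : E1)
      = indicatorConstLp 1 hs hsf (1:ℝ) + indicatorConstLp 1 ht htf (1:ℝ) := by
  have e : r = s ∪ t := by ext x; exact h x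
  subst e
  exact indicatorConstLp_disjoint_union hs ht hsf htf (Set.disjoint_left.2 hd) 1

lemma iQ_eq : iQ = iA + iC := by
  refine ind_add _ _ _ _ _ _ ?_ ?_
  · intro x
    constructor
    · rintro ⟨⟨h1, h2⟩, h3, h4⟩
      by_cases h : x.1 + x.2 < 1
      · exact Or.inl ⟨⟨h1, h2⟩, h3, h⟩
      · exact Or.inr ⟨⟨h1, h2⟩, h4, not_lt.1 h⟩
    · rintro (⟨⟨h1, h2⟩, h3, h4⟩ | ⟨⟨h1, h2⟩, h3, h4⟩)
      · exact ⟨⟨h1, h2⟩, h3, by linarith⟩
      · exact ⟨⟨h1, h2⟩, by linarith, h3⟩
  · rintro x ⟨-, -, h1⟩ ⟨-, -, h2⟩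
    linarith

lemma iS_eq : iS = iA + iB := by
  refine ind_add _ _ _ _ _ _ ?_ ?_
  · intro x
    constructor
    · rintro ⟨⟨h1, h2⟩, h3, h4⟩
      by_cases h : x.2 < 0
      · exact Or.inr ⟨⟨h1, h2⟩, h, h3⟩
      · exact Or.inl ⟨⟨h1, h2⟩, not_lt.1 h, h4⟩
    · rintro (⟨⟨h1, h2⟩, h3, h4⟩ | ⟨⟨h1, h2⟩, h3, h4⟩)
      · exact ⟨⟨h1, h2⟩, by linarith, h4⟩
      · exact ⟨⟨h1, h2⟩, h4, by linarith⟩
  · rintro x ⟨-, h1, -⟩ ⟨-, h2, -⟩
    linarith

lemma ce_sh_iQ : ce sh mp_sh iQ = iS := by
  refine ce_ind _ _ _ _ _ _ fun x => ?_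
  rw [sh_apply]
  constructor
  · rintro ⟨h1, h3, h4⟩
    exact ⟨h1, h3, h4⟩
  · rintro ⟨h1, h3, h4⟩
    exact ⟨h1, h3, h4⟩

lemma ce_tr_iB : ce tr mp_tr iB = iC := by
  refine ce_ind _ _ _ _ _ _ fun x => ?_
  rw [tr_apply]
  have e1 : (x + (0, -1) : Pl).1 = x.1 := add_zero _
  have e2 : (x + (0, -1) : Pl).2 = x.2 - 1 := by
    show x.2 + -1 = _; ring
  constructor
  · rintro ⟨h1, h3, h4⟩
    rw [e1] at h1 h4
    rw [e2] at h3 h4
    exact ⟨h1, by linarith, by linarith⟩
  · rintro ⟨h1, h3, h4⟩
    refine ⟨?_, ?_, ?_⟩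
    · rw [e1]; exact h1
    · rw [e2]; linarith
    · rw [e1, e2]; linarith

lemma ce_sw_iQ : ce sw mp_sw iQ = iQ := by
  refine ce_ind _ _ _ _ _ _ fun x => ?_
  rw [sw_apply]
  exact ⟨fun h => ⟨h.2, h.1⟩, fun h => ⟨h.2, h.1⟩⟩

lemma intf_iQ : intf iQ = 1 := by
  rw [intf_apply, iQ, integral_congr_ae (indicatorConstLp_coeFn (p := (1 : ℝ≥0∞)) (hs := mQ0)
    (hμs := fQ0) (c := (1:ℝ))), integral_indicator_const _ mQ0, smul_eq_mul, mul_one,
    measureReal_def, Q0, Measure.volume_eq_prod, Measure.prod_prod, Real.volume_Ico]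
  simp

lemma diag_null : ∀ᵐ x ∂(volume : Measure Pl), |x.1| ≠ |x.2| := by
  have hm : MeasurableSet {x : Pl | ¬ |x.1| ≠ |x.2|} := by
    have : {x : Pl | ¬ |x.1| ≠ |x.2|} = {x : Pl | |x.1| = |x.2|} := by
      ext x; simp
    rw [this]
    exact measurableSet_eq_fun measurable_fst.abs measurable_snd.abs
  rw [ae_iff, Measure.volume_eq_prod, Measure.measure_prod_null hm]
  refine Filter.Eventually.of_forall fun a => ?_
  show volume (Prod.mk a ⁻¹' {x : Pl | ¬ |x.1| ≠ |x.2|}) = 0
  refine measure_mono_null (t := {a, -a}) ?_ (Set.Finite.measure_zero (by simp) _)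
  intro y hy
  have h1 : |a| = |y| := by
    by_contra hcon
    exact hy hcon
  rcases abs_eq_abs.1 h1 with h | h
  · left; exact h.symm
  · right
    show y = -a
    linarith

theorem not_hasEDL_plane : ¬ HasEDL E1 := by
  rintro ⟨P, hP1, hP2⟩
  have key : ∀ (e : Pl ≃ᵐ Pl) (he : MeasurePreserving e volume volume) {K K' : Pl → ℝ}
      (hK : Ker K) (hK' : Ker K'), (∀ x y, K (e x - e y) = K' (x - y)) →
      ∀ u, P (LL K hK) u = P (LL K' hK') (ce e he u) := by
    intro e he K K' hK hK' hKK u
    refine hP2 (ce e he) (LL K' hK') (LL K hK) (fun v => ?_) u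
    rw [LL_fn, LL_fn, LinearIsometryEquiv.norm_map]
    congr 1
    exact G_comp he (e.prodCongr e).measurableEmbedding hKK v _ (coe_ce e he v)
  -- invariance of the square under the shear
  have hshear : ∀ {K : Pl → ℝ} (hK : Ker K), P (LL K hK) (ce sh mp_sh iQ) = P (LL K hK) iQ := by
    intro K hK
    have h1 := key tr mp_tr hK hK (fun x y => by
      rw [tr_apply, tr_apply, add_sub_add_right_eq_sub]) iB
    rw [ce_tr_iB] at h1
    rw [ce_sh_iQ, iS_eq, iQ_eq, map_add, map_add, h1]
  set M : ∀ S : Set Pl, MeasurableSet S → ℝ := fun S hS => P (LL (ki S) (ker_ki hS)) iQ with hM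
  have hstep : ∀ n : ℤ, M (Sc (n + 1)) (measurableSet_Sc _) = M (Sc n) (measurableSet_Sc _) := by
    intro n
    have h1 := key sh mp_sh (ker_ki (measurableSet_Sc (n + 1))) (ker_ki (measurableSet_Sc n))
      (fun x y => by
        apply ki_iff
        rw [sh_apply, sh_apply]
        have e1 : (((x.1, x.1 + x.2) : Pl) - (y.1, y.1 + y.2)) = ((x - y).1, (x - y).1 + (x - y).2) := by
          ext
          · rfl
          · show x.1 + x.2 - (y.1 + y.2) = x.1 - y.1 + (x.2 - y.2)
            ring
        rw [e1]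
        generalize x - y = d
        unfold Sc
        simp only [Set.mem_ofPred_eq]
        push_cast
        constructor
        · rintro (⟨h1, h2, h3⟩ | ⟨h1, h2, h3⟩)
          · left; exact ⟨h1, by linarith, by linarith⟩
          · right; exact ⟨h1, by linarith, by linarith⟩
        · rintro (⟨h1, h2, h3⟩ | ⟨h1, h2, h3⟩)
          · left; exact ⟨h1, by linarith, by linarith⟩
          · right; exact ⟨h1, by linarith, by linarith⟩) iQ
    rw [hshear] at h1
    exact h1
  have hconst : ∀ n : ℕ, M (Sc n) (measurableSet_Sc _) = M (Sc 0) (measurableSet_Sc _) := by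
    intro n
    induction n with
    | zero => rfl
    | succ n ih =>
      rw [← ih]
      have := hstep n
      push_cast
      exact this
  set c : ℝ := M (Sc 0) (measurableSet_Sc _) with hc
  -- additivity
  have hadd : ∀ {S₁ S₂ S₃ : Set Pl} (h1 : MeasurableSet S₁) (h2 : MeasurableSet S₂)
      (h3 : MeasurableSet S₃), (∀ x, ki S₃ x = ki S₁ x + ki S₂ x) → M S₃ h3 = M S₁ h1 + M S₂ h2 := by
    intro S₁ S₂ S₃ h1 h2 h3 h
    have e : LL (ki S₃) (ker_ki h3) = LL (ki S₁) (ker_ki h1) + LL (ki S₂) (ker_ki h2) := by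
      apply Lip0.ext
      intro u
      rw [Lip0.fn_add, LL_fn, LL_fn, LL_fn, G_add (ker_ki h1) (ker_ki h2) h, add_div]
    show P (LL (ki S₃) (ker_ki h3)) iQ = _
    rw [e, map_add]; rfl
  have hU : ∀ N : ℕ, M (Us N) (measurableSet_Us N) = N * c := by
    intro N
    induction N with
    | zero =>
      have e : LL (ki (Us 0)) (ker_ki (measurableSet_Us 0)) = 0 := by
        apply Lip0.ext
        intro u
        rw [LL_fn, Lip0.fn_zero]
        have h1 : ki (Us 0) = fun _ => 0 := by
          funext x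
          unfold ki
          rw [Set.indicator_of_notMem]
          rintro (⟨h1, h2, h3⟩ | ⟨h1, h2, h3⟩)
          · rw [Nat.cast_zero, zero_mul] at h3; linarith
          · rw [Nat.cast_zero, zero_mul] at h2; linarith
        rw [h1]
        unfold G b
        simp
      show P (LL (ki (Us 0)) (ker_ki (measurableSet_Us 0))) iQ = _
      rw [e, map_zero]; simp
    | succ N ih =>
      have h1 := hadd (measurableSet_Us N) (measurableSet_Sc N) (measurableSet_Us (N + 1)) (by
        intro x
        have hN : (0:ℝ) ≤ N := Nat.cast_nonneg N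
        have hor : x ∈ Us (N + 1) ↔ x ∈ Us N ∨ x ∈ Sc N := by
          unfold Us Sc
          simp only [Set.mem_ofPred_eq]
          push_cast
          constructor
          · rintro (⟨h1, h2, h3⟩ | ⟨h1, h2, h3⟩)
            · by_cases h : x.2 < N * x.1
              · exact Or.inl (Or.inl ⟨h1, h2, h⟩)
              · exact Or.inr (Or.inl ⟨h1, not_lt.1 h, h3⟩)
            · by_cases h : N * x.1 < x.2
              · exact Or.inl (Or.inr ⟨h1, h, h3⟩)
              · exact Or.inr (Or.inr ⟨h1, h2, not_lt.1 h⟩)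
          · rintro ((⟨h1, h2, h3⟩ | ⟨h1, h2, h3⟩) | (⟨h1, h2, h3⟩ | ⟨h1, h2, h3⟩))
            · left; exact ⟨h1, h2, by linarith⟩
            · right; exact ⟨h1, by linarith, h3⟩
            · left; exact ⟨h1, le_trans (by positivity) h2, h3⟩
            · right; exact ⟨h1, h2, h3.trans (by nlinarith)⟩
        have hdis : x ∈ Us N → x ∉ Sc N := by
          unfold Us Sc
          simp only [Set.mem_ofPred_eq]
          push_cast
          rintro (⟨h1, h2, h3⟩ | ⟨h1, h2, h3⟩) (⟨h4, h5, h6⟩ | ⟨h4, h5, h6⟩) <;> linarith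
        unfold ki
        by_cases hx : x ∈ Us N
        · rw [Set.indicator_of_mem hx, Set.indicator_of_mem (hor.2 (Or.inl hx)),
            Set.indicator_of_notMem (hdis hx), add_zero]
        · by_cases hx' : x ∈ Sc N
          · rw [Set.indicator_of_notMem hx, Set.indicator_of_mem (hor.2 (Or.inr hx')),
              Set.indicator_of_mem hx', zero_add]
          · rw [Set.indicator_of_notMem hx, Set.indicator_of_notMem hx',
              Set.indicator_of_notMem fun h => (hor.1 h).elim hx hx', add_zero])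
      rw [h1, ih, hconst]
      push_cast
      ring
  have hc0 : c = 0 := by
    by_contra hne
    have hpos : 0 < |c| := abs_pos.2 hne
    have hb : ∀ N : ℕ, N * |c| ≤ ‖P‖ * 3 * ‖iQ‖ := by
      intro N
      have h1 : |M (Us N) (measurableSet_Us N)| ≤ ‖P‖ * 3 * ‖iQ‖ := by
        have h2 := (P (LL (ki (Us N)) (ker_ki (measurableSet_Us N)))).le_opNorm iQ
        have h3 := P.le_opNorm (LL (ki (Us N)) (ker_ki (measurableSet_Us N)))
        have h4 := mul_le_mul_of_nonneg_left (LL_norm (ker_ki (measurableSet_Us N)))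
          (norm_nonneg P)
        exact h2.trans (mul_le_mul_of_nonneg_right (h3.trans h4) (norm_nonneg _))
      rw [hU, abs_mul, Nat.abs_cast] at h1
      exact h1
    obtain ⟨N, hN⟩ := exists_nat_gt (‖P‖ * 3 * ‖iQ‖ / |c|)
    rw [div_lt_iff₀ hpos] at hN
    linarith [hb N]
  have hm1 : M (Sc (-1)) (measurableSet_Sc _) = 0 := by
    have := hstep (-1)
    rw [← this]
    exact hc0
  -- the middle double sector
  set W : Set Pl := Sc (-1) ∪ Sc 0 with hW
  have hWm : MeasurableSet W := (measurableSet_Sc _).union (measurableSet_Sc _)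
  have hWmem : ∀ x : Pl, x ∈ W ↔ (0 < x.1 ∧ -x.1 ≤ x.2 ∧ x.2 < x.1) ∨
      (x.1 < 0 ∧ x.1 < x.2 ∧ x.2 ≤ -x.1) := by
    intro x
    rw [hW, Set.mem_union]
    unfold Sc
    simp only [Set.mem_ofPred_eq]
    push_cast
    constructor
    · rintro ((⟨h1, h2, h3⟩ | ⟨h1, h2, h3⟩) | (⟨h1, h2, h3⟩ | ⟨h1, h2, h3⟩))
      · left; exact ⟨h1, by linarith, by linarith⟩
      · right; exact ⟨h1, by linarith, by linarith⟩
      · left; exact ⟨h1, by linarith, by linarith⟩
      · right; exact ⟨h1, by linarith, by linarith⟩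
    · rintro (⟨h1, h2, h3⟩ | ⟨h1, h2, h3⟩)
      · by_cases h : x.2 < 0
        · left; left; exact ⟨h1, by linarith, by linarith⟩
        · right; left; exact ⟨h1, by linarith, by linarith⟩
      · by_cases h : 0 < x.2
        · left; right; exact ⟨h1, by linarith, by linarith⟩
        · right; right; exact ⟨h1, by linarith, by linarith⟩
  have hMW : M W hWm = 0 := by
    rw [hadd (measurableSet_Sc (-1)) (measurableSet_Sc 0) hWm, hm1, ← hc, hc0, add_zero]
    intro x
    unfold ki
    have hd : x ∈ Sc (-1) → x ∉ Sc 0 := by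
      unfold Sc
      simp only [Set.mem_ofPred_eq]
      push_cast
      rintro (⟨h1, h2, h3⟩ | ⟨h1, h2, h3⟩) (⟨h4, h5, h6⟩ | ⟨h4, h5, h6⟩) <;> linarith
    by_cases hx : x ∈ Sc (-1)
    · rw [Set.indicator_of_mem hx, Set.indicator_of_mem (show x ∈ W from Or.inl hx),
        Set.indicator_of_notMem (hd hx), add_zero]
    · by_cases hx' : x ∈ Sc 0
      · rw [Set.indicator_of_notMem hx, Set.indicator_of_mem (show x ∈ W from Or.inr hx'),
          Set.indicator_of_mem hx', zero_add]
      · rw [Set.indicator_of_notMem hx, Set.indicator_of_notMem hx',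
          Set.indicator_of_notMem (show x ∉ W from fun h => h.elim hx hx'), add_zero]
  set W' : Set Pl := sw ⁻¹' W with hW'
  have hWm' : MeasurableSet W' := sw.measurable hWm
  have hMW' : M W' hWm' = 0 := by
    have h1 := key sw mp_sw (ker_ki hWm) (ker_ki hWm') (fun x y => by
      apply ki_iff
      rw [hW', Set.mem_preimage]
      have : sw x - sw y = sw (x - y) := rfl
      rw [this]) iQ
    rw [ce_sw_iQ] at h1
    show P (LL (ki W') (ker_ki hWm')) iQ = 0
    rw [← h1]
    exact hMW
  -- the whole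
  have hun : M univ MeasurableSet.univ = 0 := by
    have h1 : M univ MeasurableSet.univ = M W hWm + M W' hWm' := by
      have e : LL (ki univ) (ker_ki MeasurableSet.univ)
          = LL (ki W) (ker_ki hWm) + LL (ki W') (ker_ki hWm') := by
        apply Lip0.ext
        intro u
        rw [Lip0.fn_add, LL_fn, LL_fn, LL_fn]
        have h2 : G (ki univ) u = G (fun x => ki W x + ki W' x) u := by
          apply G_null
          filter_upwards [diag_null] with x hx
          have h3 : x ∈ W' ↔ sw x ∈ W := Iff.rfl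
          unfold ki
          rw [Set.indicator_of_mem (Set.mem_univ x)]
          rcases lt_or_gt_of_ne hx with h | h
          · have h4 : x ∉ W := by
              rw [hWmem]
              rintro (⟨h5, h6, h7⟩ | ⟨h5, h6, h7⟩)
              · rw [abs_of_pos h5] at h
                have := abs_le.2 ⟨h6, h7.le⟩
                linarith
              · rw [abs_of_neg h5] at h
                have := abs_le.2 ⟨(by linarith : -(-x.1) ≤ x.2), h7⟩
                linarith
            have h5 : x ∈ W' := by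
              rw [h3, hWmem, sw_apply]
              show (0 < x.2 ∧ -x.2 ≤ x.1 ∧ x.1 < x.2) ∨ (x.2 < 0 ∧ x.2 < x.1 ∧ x.1 ≤ -x.2)
              rcases lt_trichotomy x.2 0 with h6 | h6 | h6
              · right
                rw [abs_of_neg h6, abs_lt] at h
                exact ⟨h6, by linarith, by linarith⟩
              · rw [h6, abs_zero] at h
                exact absurd h (not_lt.2 (abs_nonneg _))
              · left
                rw [abs_of_pos h6, abs_lt] at h
                exact ⟨h6, by linarith, by linarith⟩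
            rw [Set.indicator_of_notMem h4, Set.indicator_of_mem h5, zero_add]
          · have h4 : x ∉ W' := by
              rw [h3, hWmem, sw_apply]
              show ¬ ((0 < x.2 ∧ -x.2 ≤ x.1 ∧ x.1 < x.2) ∨ (x.2 < 0 ∧ x.2 < x.1 ∧ x.1 ≤ -x.2))
              rintro (⟨h5, h6, h7⟩ | ⟨h5, h6, h7⟩)
              · rw [abs_of_pos h5] at h
                have := abs_le.2 ⟨h6, h7.le⟩
                linarith
              · rw [abs_of_neg h5] at h
                have := abs_le.2 ⟨(by linarith : -(-x.2) ≤ x.1), h7⟩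
                linarith
            have h5 : x ∈ W := by
              rw [hWmem]
              rcases lt_trichotomy x.1 0 with h6 | h6 | h6
              · right
                rw [abs_of_neg h6, abs_lt] at h
                exact ⟨h6, by linarith, by linarith⟩
              · rw [h6, abs_zero] at h
                exact absurd h (not_lt.2 (abs_nonneg _))
              · left
                rw [abs_of_pos h6, abs_lt] at h
                exact ⟨h6, by linarith, by linarith⟩
            rw [Set.indicator_of_mem h5, Set.indicator_of_notMem h4, add_zero]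
        rw [h2, G_add (ker_ki hWm) (ker_ki hWm') (fun x => rfl), add_div]
      show P (LL (ki univ) (ker_ki MeasurableSet.univ)) iQ = _
      rw [e, map_add]; rfl
    rw [h1, hMW, hMW', add_zero]
  have hun1 : M univ MeasurableSet.univ = 1 := by
    have h1 : P (LL (ki univ) (ker_ki MeasurableSet.univ)) = intf := by
      apply hP1
      intro u
      have h2 : ki (univ : Set Pl) = fun _ => 1 := by
        funext x
        exact Set.indicator_of_mem (Set.mem_univ x) _
      rw [LL_fn, h2, G_one, intf_apply]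
      rcases eq_or_ne u 0 with rfl | hu
      · rw [norm_zero, div_zero]
        rw [integral_congr_ae (Lp.coeFn_zero ℝ 1 (volume : Measure Pl))]
        simp
      · rw [mul_div_assoc, div_self (norm_ne_zero_iff.2 hu), mul_one]
    show P (LL (ki univ) (ker_ki MeasurableSet.univ)) iQ = 1
    rw [h1, intf_iQ]
  rw [hun] at hun1
  exact zero_ne_one hun1

theorem not_hasEDL_L1 : ¬ HasEDL (Lp ℝ 1 (volume.restrict (Icc (0:ℝ) 1))) := by
  intro h
  have h0 : (volume : Measure Pl) ≠ 0 := by
    intro h0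
    have h1 : volume Q0 = 1 := by
      rw [Q0, Measure.volume_eq_prod, Measure.prod_prod, Real.volume_Ico]; simp
    rw [h0] at h1
    simp at h1
  have hn : NullSingletonClass (volume : Measure Pl) := by
    infer_instance
  obtain ⟨e⟩ := exists_iso (volume : Measure Pl) h0 (p := 1) ENNReal.one_ne_top
  exact not_hasEDL_plane (h.congr e.symm)

end Q98.EL
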